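import Pool.Agent.U181.TG.Main

/-! Groups which are residually finite `p`-groups for infinitely many primes `p` are limits of finite
groups without small torsion. -/

set_option autoImplicit false

namespace Pool.Agent.U181.TG

theorem noSmallTorsion_of_isPGroup {p N : ℕ} (hp : p.Prime) (hN : N < p) (Q : Type) [Group Q]
    (hQ : IsPGroup p Q) : NoSmallTorsion N Q := by
  intro g k hk hkN hg
  obtain ⟨j, hj⟩ := hQ g
  have h1 : orderOf g ∣ p ^ j := orderOf_dvd_of_pow_eq_one hj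
  obtain ⟨i, _, hi⟩ := (Nat.dvd_prime_pow hp).1 h1
  have h2 : orderOf g ∣ k := orderOf_dvd_of_pow_eq_one hg
  have h3 : orderOf g ≤ k := Nat.le_of_dvd hk h2
  have h4 : i = 0 := by
    by_contra h0
    have h5 : p ≤ p ^ i := Nat.le_self_pow h0 p
    omega
  rw [h4, pow_zero] at hi
  exact orderOf_eq_one_iff.1 hi

theorem isLimit_finite (Γ : Type) [Group Γ]
    (h : ∀ N : ℕ, ∃ p : ℕ, N < p ∧ p.Prime ∧ ∀ g : Γ, g ≠ 1 →
      ∃ (Q : Type) (_ : Group Q), Finite Q ∧ IsPGroup p Q ∧ ∃ f : Γ →* Q, f g ≠ 1) :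
    IsLimit (fun G _ => Finite G) Γ := by
  classical
  intro r φ W N
  obtain ⟨p, hpN, hp, hres⟩ := h N
  let J : Type := {w : FreeGroup (Fin r) // w ∈ W ∧ φ w ≠ 1}
  have hJ : Finite J := Finite.of_injective
    (fun w : J => (⟨w.1, w.2.1⟩ : {w : FreeGroup (Fin r) // w ∈ W}))
    (fun a b hab => Subtype.ext (congrArg (fun x => x.1) hab))
  choose Q iQ hQ1 hQ2 f hf using fun w : J => hres (φ w.1) w.2.2
  refine ⟨∀ w : J, Q w, inferInstance, ?_, ?_, ?_⟩
  · exact Pi.finite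
  · intro g k hk hkN hg
    funext w
    have h1 : (g w) ^ k = 1 := congrFun hg w
    exact noSmallTorsion_of_isPGroup hp hpN (Q w) (hQ2 w) (g w) k hk hkN h1
  · refine ⟨(MonoidHom.pi f).comp φ, ?_⟩
    intro w hw
    constructor
    · intro h1
      by_contra h2
      have h3 := congrFun h1 (⟨w, hw, h2⟩ : J)
      exact hf ⟨w, hw, h2⟩ h3
    · intro h1
      rw [MonoidHom.comp_apply, h1, map_one]

end Pool.Agent.U181.TG
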