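import Pool.Agent.U181.TG.Main

/-! The abstract compactness principle for existential statements about group rings. -/

set_option autoImplicit false

namespace Pool.Agent.U181.TG

open Matrix

universe u

section abs

variable {R : Type} [Ring R]

/-- the homomorphism kills the elements of the finite set -/
def Sat {F G : Type} [Group F] [Group G] (T : Finset (MonoidAlgebra R F)) (φ : F →* G) : Prop :=
  ∀ x ∈ T, gr R φ x = 0

open Classical in
/-- the words which decide -/
noncomputable def WT {F : Type} [Group F] (T : Finset (MonoidAlgebra R F)) : Finset F :=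
  T.biUnion W

theorem sat_of {F G H : Type} [Group F] [Group G] [Group H] (T : Finset (MonoidAlgebra R F))
    (φ : F →* G) (ψ : F →* H) (h : ∀ w ∈ WT T, φ w = 1 → ψ w = 1) (h0 : Sat T φ) : Sat T ψ := by
  classical
  intro x hx
  refine kill_of' x φ ψ (fun w hw => h w ?_) (h0 x hx)
  unfold WT
  exact Finset.mem_biUnion.2 ⟨x, hx, hw⟩

theorem sat_iff {F G H : Type} [Group F] [Group G] [Group H] (T : Finset (MonoidAlgebra R F))
    (φ : F →* G) (ψ : F →* H) (h : ∀ w ∈ WT T, φ w = 1 ↔ ψ w = 1) : Sat T φ ↔ Sat T ψ :=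
  ⟨sat_of T φ ψ fun w hw => (h w hw).1, sat_of T ψ φ fun w hw => (h w hw).2⟩

variable (C : ∀ (G : Type) [Group G], Prop)

/-- compactness, one direction -/
theorem abs_lift {ι : Type u} {r : ℕ} (H : Finset (MonoidAlgebra R (FreeGroup (Fin r))))
    (E : ι → Finset (MonoidAlgebra R (FreeGroup (Fin r))))
    (h : ∃ (L : Finset ι) (N : ℕ), ∀ (G : Type) [Group G], C G → NoSmallTorsion N G →
      ∀ φ : FreeGroup (Fin r) →* G, Sat H φ → ∃ D ∈ L, Sat (E D) φ)
    (Γ : Type) [Group Γ] (hΓ : IsLimit C Γ) (φ : FreeGroup (Fin r) →* Γ) (hφ : Sat H φ) :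
    ∃ D, Sat (E D) φ := by
  classical
  obtain ⟨L, N, hL⟩ := h
  obtain ⟨G, _, hG, hN, ψ, hψ⟩ := hΓ r φ (L.biUnion (fun D => WT (E D)) ∪ WT H) N
  have h1 : Sat H ψ := (sat_iff H φ ψ fun w hw =>
    (hψ w (Finset.mem_union_right _ hw)).symm).1 hφ
  obtain ⟨D, hD, hW⟩ := hL G hG hN ψ h1
  exact ⟨D, (sat_iff (E D) ψ φ fun w hw => hψ w (Finset.mem_union_left _
    (Finset.mem_biUnion.2 ⟨D, hD, hw⟩))).1 hW⟩

/-- compactness, the other direction -/
theorem abs_compact {ι : Type u} {r : ℕ} (H : Finset (MonoidAlgebra R (FreeGroup (Fin r))))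
    (E : ι → Finset (MonoidAlgebra R (FreeGroup (Fin r))))
    (h : ∀ (Γ : Type) [Group Γ], IsLimit C Γ → ∀ φ : FreeGroup (Fin r) →* Γ,
      Function.Surjective φ → Sat H φ → ∃ D, Sat (E D) φ) :
    ∃ (L : Finset ι) (N : ℕ), ∀ (G : Type) [Group G], C G → NoSmallTorsion N G →
      ∀ φ : FreeGroup (Fin r) →* G, Sat H φ → ∃ D ∈ L, Sat (E D) φ := by
  classical
  by_contra hcon
  push Not at hcon
  choose G iG hC hN φ h1 h3 using hcon
  let I : Type u := Finset ι × ℕ
  let U : Ultrafilter I := Ultrafilter.of Filter.atTop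
  have hU : ∀ {p : I → Prop}, (∀ᶠ i in Filter.atTop, p i) → ∀ᶠ i in (U : Filter I), p i :=
    fun hp => Filter.Eventually.filter_mono (Ultrafilter.of_le _) hp
  have hU' : ∀ {p : I → Prop}, (∀ᶠ i in (U : Filter I), p i) → ∃ i, p i := fun hp => hp.exists
  -- the limit group
  let K : Subgroup (FreeGroup (Fin r)) :=
    { carrier := {w | ∀ᶠ i in (U : Filter I), φ i.1 i.2 w = 1}
      one_mem' := Filter.Eventually.of_forall fun i => map_one _
      mul_mem' := by
        intro a b ha hb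
        filter_upwards [ha, hb] with i h1 h2
        rw [map_mul, h1, h2, one_mul]
      inv_mem' := by
        intro a ha
        filter_upwards [ha] with i h1
        rw [map_inv, h1, inv_one] }
  have hKn : K.Normal := ⟨fun x hx g => by
    change ∀ᶠ i in (U : Filter I), φ i.1 i.2 (g * x * g⁻¹) = 1
    have hx' : ∀ᶠ i in (U : Filter I), φ i.1 i.2 x = 1 := hx
    filter_upwards [hx'] with i h1
    rw [map_mul, map_mul, h1, mul_one, map_inv, mul_inv_cancel]⟩
  let q : FreeGroup (Fin r) →* FreeGroup (Fin r) ⧸ K := QuotientGroup.mk' K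
  have hq : Function.Surjective q := QuotientGroup.mk'_surjective K
  have hq1 : ∀ w, q w = 1 ↔ ∀ᶠ i in (U : Filter I), φ i.1 i.2 w = 1 := fun w =>
    (QuotientGroup.eq_one_iff w)
  have agree : ∀ W : Finset (FreeGroup (Fin r)), ∀ᶠ i in (U : Filter I),
      ∀ w ∈ W, q w = 1 ↔ φ i.1 i.2 w = 1 := by
    intro W
    rw [Filter.eventually_all_finset]
    intro w _
    by_cases hw : q w = 1
    · filter_upwards [(hq1 w).1 hw] with i hi
      simp [hw, hi]
    · have h4 : ¬ ∀ᶠ i in (U : Filter I), φ i.1 i.2 w = 1 := fun h => hw ((hq1 w).2 h)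
      rw [← Ultrafilter.eventually_not] at h4
      filter_upwards [h4] with i hi
      simp [hw, hi]
  have hlim : IsLimit C (FreeGroup (Fin r) ⧸ K) := by
    intro r' ψ W N
    choose s hs using hq
    let ψ' : FreeGroup (Fin r') →* FreeGroup (Fin r) :=
      FreeGroup.lift fun j => s (ψ (FreeGroup.of j))
    have hψ' : q.comp ψ' = ψ := by
      apply FreeGroup.ext_hom
      intro j
      simp [ψ', hs]
    have e1 : ∀ᶠ i in (U : Filter I), N ≤ i.2 := by
      apply hU
      rw [Filter.eventually_atTop]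
      exact ⟨(∅, N), fun i hi => hi.2⟩
    obtain ⟨i, hi1, hi2⟩ := hU' (e1.and (agree (W.image ψ')))
    refine ⟨G i.1 i.2, iG i.1 i.2, hC i.1 i.2, ?_, (φ i.1 i.2).comp ψ', ?_⟩
    · intro g k hk hk' hg
      exact hN i.1 i.2 g k hk (hk'.trans hi1) hg
    · intro w hw
      rw [MonoidHom.comp_apply, ← hi2 (ψ' w) (Finset.mem_image_of_mem _ hw), ← hψ']
      rfl
  have h4 : Sat H q := by
    obtain ⟨i, hi⟩ := hU' (agree (WT H))
    exact (sat_iff H q (φ i.1 i.2) hi).2 (h1 i.1 i.2)
  obtain ⟨D, hD⟩ := h _ hlim q hq h4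
  have e2 : ∀ᶠ i in (U : Filter I), D ∈ i.1 := by
    apply hU
    rw [Filter.eventually_atTop]
    exact ⟨({D}, 0), fun i hi => hi.1 (Finset.mem_singleton_self D)⟩
  obtain ⟨i, hi1, hi2⟩ := hU' (e2.and (agree (WT (E D))))
  exact h3 i.1 i.2 D hi1 ((sat_iff (E D) q (φ i.1 i.2) hi2).1 hD)

end abs

section ent

variable {R : Type} [Ring R] {F : Type} [Group F] {m n : Type} [Fintype m] [Fintype n]

open Classical in
/-- the set of the entries -/
noncomputable def ent (M : Matrix m n (MonoidAlgebra R F)) : Finset (MonoidAlgebra R F) :=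
  Finset.univ.image fun p : m × n => M p.1 p.2

theorem sat_ent {G : Type} [Group G] (M : Matrix m n (MonoidAlgebra R F)) (φ : F →* G) :
    Sat (ent M) φ ↔ M.map (gr R φ) = 0 := by
  classical
  unfold Sat ent
  constructor
  · intro h
    ext1 i j
    exact h _ (Finset.mem_image.2 ⟨(i, j), Finset.mem_univ _, rfl⟩)
  · intro h x hx
    obtain ⟨p, _, rfl⟩ := Finset.mem_image.1 hx
    exact congrFun (congrFun h p.1) p.2

open Classical in
theorem sat_union {G : Type} [Group G] (S T : Finset (MonoidAlgebra R F)) (φ : F →* G) :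
    Sat (S ∪ T) φ ↔ Sat S φ ∧ Sat T φ := by
  unfold Sat
  constructor
  · intro h
    exact ⟨fun x hx => h x (Finset.mem_union_left _ hx), fun x hx => h x (Finset.mem_union_right _ hx)⟩
  · rintro ⟨h1, h2⟩ x hx
    rcases Finset.mem_union.1 hx with hx | hx
    · exact h1 x hx
    · exact h2 x hx

end ent

end Pool.Agent.U181.TG
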