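import Mathlib

/-! Group rings and homomorphisms: an element is killed or not depending on finitely many
coincidences. -/

set_option autoImplicit false

namespace Pool.Agent.U181.TG

open Matrix

universe u v w

variable {R : Type u} [Ring R]

/-- the homomorphism of group rings induced by a homomorphism of groups -/
noncomputable abbrev gr (R : Type u) [Ring R] {F : Type v} {G : Type w} [Group F] [Group G]
    (φ : F →* G) : MonoidAlgebra R F →+* MonoidAlgebra R G :=
  MonoidAlgebra.mapDomainRingHom R φ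

section kill

variable {F G H : Type*} [Group F] [Group G] [Group H]

theorem gr_apply (φ : F →* G) (x : MonoidAlgebra R F) :
    gr R φ x = MonoidAlgebra.mapDomain φ x := rfl

theorem kill_of (x : MonoidAlgebra R F) (φ : F →* G) (ψ : F →* H)
    (h : ∀ v ∈ x.coeff.support, ∀ w ∈ x.coeff.support, φ v = φ w → ψ v = ψ w)
    (h0 : gr R φ x = 0) : gr R ψ x = 0 := by
  classical
  let k : G → H := fun g => if hg : ∃ v ∈ x.coeff.support, φ v = g then ψ hg.choose else 1
  have hk : ∀ v ∈ x.coeff.support, k (φ v) = ψ v := by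
    intro v hv
    have hg : ∃ w ∈ x.coeff.support, φ w = φ v := ⟨v, hv, rfl⟩
    have h1 : k (φ v) = ψ hg.choose := dif_pos hg
    rw [h1]
    exact h _ hg.choose_spec.1 _ hv hg.choose_spec.2
  rw [gr_apply] at h0 ⊢
  have h1 : Finsupp.mapDomain φ x.coeff = 0 := by
    have := congrArg MonoidAlgebra.coeff h0
    simpa using this
  apply MonoidAlgebra.coeff_injective
  have h2 : Finsupp.mapDomain ψ x.coeff = Finsupp.mapDomain (k ∘ φ) x.coeff :=
    Finsupp.mapDomain_congr (fun v hv => (hk v hv).symm)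
  have h3 : (MonoidAlgebra.mapDomain ψ x).coeff = Finsupp.mapDomain ψ x.coeff := by simp
  rw [h3, h2, Finsupp.mapDomain_comp, h1]
  simp

open Classical in
/-- the finitely many coincidences which decide whether `x` is killed -/
noncomputable def W (x : MonoidAlgebra R F) : Finset F :=
  (x.coeff.support ×ˢ x.coeff.support).image (fun p => p.1⁻¹ * p.2)

theorem mem_W {x : MonoidAlgebra R F} {v w : F} (hv : v ∈ x.coeff.support)
    (hw : w ∈ x.coeff.support) : v⁻¹ * w ∈ W x := by
  classical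
  unfold W
  exact Finset.mem_image.2 ⟨(v, w), Finset.mem_product.2 ⟨hv, hw⟩, rfl⟩

theorem kill_of' (x : MonoidAlgebra R F) (φ : F →* G) (ψ : F →* H)
    (h : ∀ w ∈ W x, φ w = 1 → ψ w = 1) (h0 : gr R φ x = 0) : gr R ψ x = 0 := by
  refine kill_of x φ ψ (fun v hv w hw hvw => ?_) h0
  have h1 : φ (v⁻¹ * w) = 1 := by
    rw [map_mul, map_inv, hvw, inv_mul_cancel]
  have h2 := h _ (mem_W hv hw) h1
  rw [map_mul, map_inv] at h2
  exact inv_mul_eq_one.1 h2

theorem kill_iff (x : MonoidAlgebra R F) (φ : F →* G) (ψ : F →* H)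
    (h : ∀ w ∈ W x, φ w = 1 ↔ ψ w = 1) : gr R φ x = 0 ↔ gr R ψ x = 0 :=
  ⟨kill_of' x φ ψ fun w hw => (h w hw).1, kill_of' x ψ φ fun w hw => (h w hw).2⟩

end kill

section mat

variable {F G H : Type*} [Group F] [Group G] [Group H] {m n : Type*} [Fintype m] [Fintype n]

open Classical in
/-- the coincidences which decide whether the matrix `M` is killed -/
noncomputable def WM (M : Matrix m n (MonoidAlgebra R F)) : Finset F :=
  Finset.univ.biUnion fun i => Finset.univ.biUnion fun j => W (M i j)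

theorem mem_WM {M : Matrix m n (MonoidAlgebra R F)} {i : m} {j : n} {w : F}
    (hw : w ∈ W (M i j)) : w ∈ WM M := by
  classical
  unfold WM
  exact Finset.mem_biUnion.2 ⟨i, Finset.mem_univ _, Finset.mem_biUnion.2 ⟨j, Finset.mem_univ _, hw⟩⟩

theorem killM_of' (M : Matrix m n (MonoidAlgebra R F)) (φ : F →* G) (ψ : F →* H)
    (h : ∀ w ∈ WM M, φ w = 1 → ψ w = 1) (h0 : M.map (gr R φ) = 0) : M.map (gr R ψ) = 0 := by
  ext1 i j
  have h1 : gr R φ (M i j) = 0 := by
    have := congrFun (congrFun h0 i) j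
    simpa using this
  have h2 := kill_of' (M i j) φ ψ (fun w hw => h w (mem_WM hw)) h1
  simpa using h2

theorem killM_iff (M : Matrix m n (MonoidAlgebra R F)) (φ : F →* G) (ψ : F →* H)
    (h : ∀ w ∈ WM M, φ w = 1 ↔ ψ w = 1) : M.map (gr R φ) = 0 ↔ M.map (gr R ψ) = 0 :=
  ⟨killM_of' M φ ψ fun w hw => (h w hw).1, killM_of' M ψ φ fun w hw => (h w hw).2⟩

theorem lift_exists (φ : F →* G) (x : MonoidAlgebra R G)
    (hx : ∀ g ∈ x.coeff.support, ∃ w, φ w = g) : ∃ y : MonoidAlgebra R F, gr R φ y = x := by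
  classical
  let s : G → F := fun g => if hg : ∃ w, φ w = g then hg.choose else 1
  have hs : ∀ g ∈ x.coeff.support, φ (s g) = g := by
    intro g hg
    have h1 : s g = (hx g hg).choose := dif_pos (hx g hg)
    rw [h1]
    exact (hx g hg).choose_spec
  refine ⟨MonoidAlgebra.mapDomain s x, ?_⟩
  rw [gr_apply]
  apply MonoidAlgebra.coeff_injective
  have h1 : (MonoidAlgebra.mapDomain φ (MonoidAlgebra.mapDomain s x)).coeff =
      Finsupp.mapDomain (φ ∘ s) x.coeff := by
    rw [Finsupp.mapDomain_comp]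
    simp
  rw [h1]
  have h2 : Finsupp.mapDomain (φ ∘ s) x.coeff = Finsupp.mapDomain id x.coeff :=
    Finsupp.mapDomain_congr (fun v hv => hs v hv)
  rw [h2, Finsupp.mapDomain_id]

theorem lift_existsM (φ : F →* G) (M : Matrix m n (MonoidAlgebra R G))
    (hM : ∀ i j, ∀ g ∈ (M i j).coeff.support, ∃ w, φ w = g) :
    ∃ N : Matrix m n (MonoidAlgebra R F), N.map (gr R φ) = M := by
  choose N hN using fun i j => lift_exists φ (M i j) (hM i j)
  refine ⟨Matrix.of N, ?_⟩
  ext1 i j
  simpa using hN i j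

theorem lift_surj (φ : F →* G) (hφ : Function.Surjective φ) (M : Matrix m n (MonoidAlgebra R G)) :
    ∃ N : Matrix m n (MonoidAlgebra R F), N.map (gr R φ) = M :=
  lift_existsM φ M fun _ _ g _ => hφ g

theorem map_map_gr (φ : F →* G) (ψ : G →* H) (M : Matrix m n (MonoidAlgebra R F)) :
    (M.map (gr R φ)).map (gr R ψ) = M.map (gr R (ψ.comp φ)) := by
  ext1 i j
  simp only [Matrix.map_apply]
  rw [gr, gr, gr, MonoidAlgebra.mapDomainRingHom_comp]
  rfl

end mat

end Pool.Agent.U181.TG
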