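import Pool.Agent.U181.TG.ClsDefs

/-! Definitions for the Bass trace conjecture: the conjecture for a domain and a group, and its weak
form at a prime. -/

set_option autoImplicit false

namespace Pool.Agent.U181.TG

/-- the value at the conjugacy class of `g` of the Hattori-Stallings rank of the idempotent matrix
`A` -/
noncomputable def hs {R : Type} [CommRing R] {G : Type} [Group G] {n : ℕ}
    (A : Matrix (Fin n) (Fin n) (MonoidAlgebra R G)) (g : G) : R :=
  ∑ i : Fin n, ∑ᶠ (h : G) (_ : IsConj h g), (A i i).coeff h

/-- the Bass trace conjecture for the commutative domain `R` and the group `G` -/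
def Bass (R : Type) [CommRing R] [IsDomain R] (G : Type) [Group G] : Prop :=
  ∀ (n : ℕ) (A : Matrix (Fin n) (Fin n) (MonoidAlgebra R G)), IsIdempotentElem A →
    ∀ g : G, ¬ IsUnit ((orderOf g : ℕ) : R) → hs A g = 0

/-- the weak form of the conjecture for the prime `p`: it is required only for the elements `g` of
infinite order which are conjugate to `g ^ (p ^ j)` for some `j ≥ 1` -/
def WeakBass (p : ℕ) (R : Type) [CommRing R] (G : Type) [Group G] : Prop :=
  ∀ (n : ℕ) (A : Matrix (Fin n) (Fin n) (MonoidAlgebra R G)), IsIdempotentElem A →
    ∀ g : G, orderOf g = 0 → (∃ j : ℕ, 1 ≤ j ∧ IsConj g (g ^ p ^ j)) → hs A g = 0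

/-- the class of groups is closed under subgroups, direct products and unrestricted wreath products
with the infinite cyclic group -/
structure ClosedSPW (C : ∀ (G : Type) [Group G], Prop) : Prop extends ClosedSP C where
  /-- wreath products with the infinite cyclic group -/
  wr : ∀ (G : Type) [Group G], C G → C (G ≀ᵣ Multiplicative ℤ)

/-- all domains of characteristic `p` and all groups in the class `C` satisfy the Bass trace
conjecture -/
def BassIn (C : ∀ (G : Type) [Group G], Prop) (p : ℕ) : Prop :=
  ∀ (R : Type) [CommRing R] [IsDomain R] [CharP R p] (G : Type) [Group G], C G → Bass R G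

/-- the weak form of the conjecture for the prime `p` and the group `Γ`, over all finite fields of
characteristic `p` -/
def WeakFin (p : ℕ) (Γ : Type) [Group Γ] : Prop :=
  ∀ (F : Type) [Field F] [Finite F] [CharP F p], WeakBass p F Γ

/-- The conditions `W p`, `p` prime, test the Bass trace conjecture for the class `C`: `W p` is
equivalent to the conjecture for all domains of characteristic `p` and all groups in `C`; if `W p`
holds for infinitely many primes `p`, then the conjecture holds for all domains of characteristic zero
and all groups in `C`; and `W p` for all primes `p` is equivalent to the conjecture for all domains and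
all groups in `C`. -/
structure Tests (C : ∀ (G : Type) [Group G], Prop) (W : ℕ → Prop) : Prop where
  /-- prime characteristic -/
  prime : ∀ p : ℕ, p.Prime → (BassIn C p ↔ W p)
  /-- characteristic zero -/
  zero : (∀ N : ℕ, ∃ p : ℕ, N ≤ p ∧ p.Prime ∧ W p) → BassIn C 0
  /-- all domains -/
  all : (∀ (R : Type) [CommRing R] [IsDomain R] (G : Type) [Group G], C G → Bass R G) ↔
    ∀ p : ℕ, p.Prime → W p

end Pool.Agent.U181.TG
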