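import Pool.Agent.U181.TG.BassR

/-! The Bass trace conjecture: the test group. -/

set_option autoImplicit false

namespace Pool.Agent.U181.TG

variable {C : ∀ (G : Type) [Group G], Prop}

theorem bad_test {F : Type} [Field F] {G : Type} [Group G] (hG : C G) (h : Bad F G) :
    Bad F (Test C) := by
  obtain ⟨r, S, h1⟩ := bad_LQ hG h
  obtain ⟨f, g, hgf⟩ := test_retract (C := C) r S
  have hx : ∀ x, g (f x) = x := fun x => DFunLike.congr_fun hgf x
  refine bad_of_hom f ?_ ?_ h1
  · intro x y hxy
    rw [← hx x, hxy, hx y]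
  · intro x y hxy
    have h2 := MonoidHom.map_isConj g hxy
    rwa [hx, hx] at h2

theorem bad_test_of {p : ℕ} (hp : p.Prime) {R : Type} [CommRing R] [IsDomain R] [CharP R p]
    {G : Type} [Group G] (hG : C G) (h : Bad R G) :
    ∃ (F : Type) (_ : Field F) (_ : Finite F) (_ : CharP F p), Bad F (Test C) := by
  obtain ⟨F, i1, i2, i3, h1⟩ := bad_finite hp h
  exact ⟨F, i1, i2, i3, bad_test hG h1⟩

/-- the third condition follows from the first two -/
theorem tests_of {W : ℕ → Prop} (h1 : ∀ p : ℕ, p.Prime → (BassIn C p ↔ W p))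
    (h2 : (∀ N : ℕ, ∃ p : ℕ, N ≤ p ∧ p.Prime ∧ W p) → BassIn C 0) : Tests C W where
  prime := h1
  zero := h2
  all := by
    constructor
    · intro h p hp
      exact (h1 p hp).1 fun R _ _ _ G _ hG => h R G hG
    · intro h R _ _ G _ hG
      rcases CharP.exists R with ⟨p, hR⟩
      rcases CharP.char_is_prime_or_zero R p with hp | hp
      · exact (h1 p hp).2 (h p hp) R G hG
      · subst hp
        refine h2 (fun N => ?_) R G hG
        obtain ⟨p, hN, hp⟩ := Nat.exists_infinite_primes N
        exact ⟨p, hN, hp, h p hp⟩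

theorem class_prod2 (hC : ClosedSP C) {A B : Type} [Group A] [Group B] (hA : C A) (hB : C B) :
    C (A × B) := by
  have h1 : C (∀ b, famB A B b) :=
    hC.prod Bool (famB A B) fun b => match b with
      | true => hA
      | false => hB
  refine hC.sub _ _ (toFamB A B) ?_ h1
  intro x y hxy
  exact Prod.ext (congrFun hxy true) (congrFun hxy false)

theorem class_units (hC : ClosedSP C) (hcyc : ∀ n : ℕ, 0 < n → C (Multiplicative (ZMod n)))
    (F : Type) [Field F] [Finite F] : C Fˣ := by
  have e : Multiplicative (ZMod (Nat.card Fˣ)) ≃* Fˣ := zmodCyclicMulEquiv inferInstance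
  exact hC.sub _ _ e.symm.toMonoidHom e.symm.injective (hcyc _ Nat.card_pos)

theorem main_tests (hC : ClosedSPW C) :
    ∃ (Γ : Type) (_ : Group Γ) (a b : Γ), C Γ ∧ Subgroup.closure {a, b} = ⊤ ∧
      Tests C (fun p => WeakFin p Γ) ∧
      ((∀ n : ℕ, 0 < n → C (Multiplicative (ZMod n))) →
        Tests C (fun p => WeakBass p (ZMod p) Γ)) := by
  have hcount : Countable (Test C) := countable_test
  obtain ⟨Γ, _, a, b, ι, κ, hab, hι, hκ, hconj⟩ := exists_twoGen (Test C)
  have hΓ : C Γ := hC.sub _ _ κ hκ (hC.wr _ (hC.wr _ (class_test hC.toClosedSP)))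
  have hb : ∀ (F : Type) [Field F], Bad F (Test C) → Bad F Γ := fun F _ h =>
    bad_of_hom ι hι hconj h
  refine ⟨Γ, inferInstance, a, b, hΓ, hab, ?_, fun hcyc => ?_⟩
  · have key : ∀ p : ℕ, p.Prime → WeakFin p Γ → BassIn C p := by
      intro p hp hW R _ _ _ G _ hG
      by_contra hcon
      obtain ⟨F, _, _, _, h1⟩ := bad_test_of hp hG (bad_of_not_bass hcon)
      exact not_weak_of_bad hp (hb F h1) (hW F)
    refine tests_of (fun p hp => ⟨fun h F _ _ _ => weak_of_bass (h F Γ hΓ), key p hp⟩) ?_
    intro hinf R _ _ _ G _ hG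
    have hR : CharZero R := CharP.charP_to_charZero R
    by_contra hcon
    obtain ⟨m, hm, h1⟩ := bad_red (bad_of_not_bass hcon)
    obtain ⟨p, hmp, hp, hW⟩ := hinf (m + 1)
    obtain ⟨k, _, _, h2⟩ := h1 p hp (fun hd => by
      have := Nat.le_of_dvd (Nat.pos_of_ne_zero hm) hd
      omega)
    obtain ⟨F, _, _, _, h3⟩ := bad_test_of hp hG h2
    exact not_weak_of_bad hp (hb F h3) (hW F)
  · have step : ∀ p : ℕ, p.Prime → ∀ (R : Type) [CommRing R] [IsDomain R] [CharP R p] (G : Type)
        [Group G], C G → Bad R G → ¬ WeakBass p (ZMod p) Γ := by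
      intro p hp R _ _ _ G _ hG hbad
      have hfact : Fact p.Prime := ⟨hp⟩
      obtain ⟨F, _, _, _, h1⟩ := bad_finite hp hbad
      have h2 := bad_prime hp h1
      have h3 : C (G × Fˣ) :=
        class_prod2 hC.toClosedSP hG (class_units hC.toClosedSP hcyc F)
      have h4 : Bad (ZMod p) Γ := hb (ZMod p) (bad_test h3 h2)
      exact not_weak_of_bad hp h4
    refine tests_of (fun p hp => ⟨fun h => ?_, fun hW R _ _ _ G _ hG => ?_⟩) ?_
    · have hfact : Fact p.Prime := ⟨hp⟩
      exact weak_of_bass (h (ZMod p) Γ hΓ)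
    · by_contra hcon
      exact step p hp R G hG (bad_of_not_bass hcon) hW
    · intro hinf R _ _ _ G _ hG
      have hR : CharZero R := CharP.charP_to_charZero R
      by_contra hcon
      obtain ⟨m, hm, h1⟩ := bad_red (bad_of_not_bass hcon)
      obtain ⟨p, hmp, hp, hW⟩ := hinf (m + 1)
      obtain ⟨k, _, _, h2⟩ := h1 p hp (fun hd => by
        have := Nat.le_of_dvd (Nat.pos_of_ne_zero hm) hd
        omega)
      exact step p hp k G hG h2 hW

theorem closedSPW_true : ClosedSPW (fun _ _ => True) where
  sub := fun _ _ _ _ _ _ _ => trivial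
  prod := fun _ _ _ _ => trivial
  wr := fun _ _ _ => trivial

theorem closedSPW_torsionFree : ClosedSPW (fun G _ => TorsionFree G) where
  toClosedSP := closedSP_torsionFree
  wr := by
    intro G _ h g k hk hg
    have h1 : g.right ^ k = 1 := by
      have h2 := congrArg RegularWreathProduct.rightHom hg
      rwa [map_pow, map_one] at h2
    have h2 : g.right = 1 := by
      have h3 : k • g.right.toAdd = 0 := by
        rw [← toAdd_pow, h1, toAdd_one]
      have h4 : g.right.toAdd = 0 := by
        rw [nsmul_eq_mul] at h3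
        exact (mul_eq_zero.1 h3).resolve_left (by exact_mod_cast hk.ne')
      exact Multiplicative.toAdd.injective h4
    have h3 : ∀ m : ℕ, (g ^ m).left = g.left ^ m ∧ (g ^ m).right = 1 := by
      intro m
      induction m with
      | zero => exact ⟨by rw [pow_zero, pow_zero]; rfl, by rw [pow_zero]; rfl⟩
      | succ m ih =>
        rw [pow_succ, pow_succ]
        constructor
        · rw [RegularWreathProduct.mul_left, ih.1, ih.2]
          funext x
          simp
        · rw [RegularWreathProduct.mul_right, ih.2, h2, mul_one]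
    have h4 : g.left = 1 := by
      funext x
      apply h (g.left x) k hk
      have h5 := congrFun (h3 k).1 x
      rw [hg] at h5
      exact h5.symm
    exact RegularWreathProduct.ext h4 h2

end Pool.Agent.U181.TG
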