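import Pool.Agent.U181.TG.BassT

/-! The Bass trace conjecture: from characteristic zero to characteristic `p` for almost all `p`, and
from finite fields to prime fields. -/

set_option autoImplicit false

namespace Pool.Agent.U181.TG

open MonoidAlgebra
open Pool.Agent.H26R2.Bass (ind ind_comm tau tau_eq ell_ch tf_ch exists_lift tf_zero_of_finite
  tf_zero_of_prime ell_class U_eq_ell)
open Pool.Agent.H23R2.Cyc (ell ell_single tf tf_apply ell_mapDomain)
open Pool.Agent.H26R2.IdemLI (ch ch_coeff ch_injective cofs cofs_mem exists_spec diag_spec U_spec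
  exists_alg exists_red U cind)

/-- specialisation of a bad idempotent matrix -/
theorem spec_step {K L : Type} [Field K] [Field L] {G : Type} [Group G] {n : ℕ}
    (E : Matrix (Fin n) (Fin n) (MonoidAlgebra K G)) (hE : E * E = E) (g : G)
    (hg : tf (ind K g) E ≠ 0) (A : Subring K) (θ : A →+* L)
    (hA : (cofs E (tf (ind K g) E)⁻¹ : Set K) ⊆ A) :
    ∃ E' : Matrix (Fin n) (Fin n) (MonoidAlgebra L G), E' * E' = E' ∧ tf (ind L g) E' ≠ 0 := by
  classical
  obtain ⟨hinv, hcoef⟩ := cofs_mem E _ A hA
  obtain ⟨E', hE', hE'2⟩ := exists_spec A θ E hE hcoef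
  obtain ⟨h1, h2⟩ := diag_spec A θ E hcoef E' hE'2
  refine ⟨E', hE', ?_⟩
  obtain ⟨a, ha1, ha2⟩ := U_spec A θ _ h1 _ h2 (fun y => IsConj y g)
  have h3 : U (cind L g) (∑ i, E' i i) = θ a := ha2.symm
  have h3' : tf (ind L g) E' = θ a := by
    rw [tf_apply, ← map_sum, ← U_eq_ell]
    exact h3
  have h4 : (a : K) = tf (ind K g) E := by
    rw [tf_apply, ← map_sum, ← U_eq_ell]
    exact ha1
  rw [h3']
  intro h0
  have h5 : a * ⟨(tf (ind K g) E)⁻¹, hinv⟩ = 1 := by
    apply Subtype.ext
    show (a : K) * (tf (ind K g) E)⁻¹ = 1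
    rw [h4]
    exact mul_inv_cancel₀ hg
  have h6 := congrArg θ h5
  rw [map_mul, h0, zero_mul, map_one] at h6
  exact zero_ne_one h6

/-- from characteristic zero to almost all prime characteristics -/
theorem bad_red {R : Type} [CommRing R] [IsDomain R] [CharZero R] {G : Type} [Group G]
    (h : Bad R G) : ∃ m : ℕ, m ≠ 0 ∧ ∀ p : ℕ, p.Prime → ¬ p ∣ m →
      ∃ (k : Type) (_ : Field k) (_ : CharP k p), Bad k G := by
  obtain ⟨n, A, hA, g, hg, hne⟩ := h
  let K := FractionRing R
  have hK : CharZero K := charZero_of_injective_algebraMap (IsFractionRing.injective R K)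
  have hE : A.map (ch (algebraMap R K) G) * A.map (ch (algebraMap R K) G) =
      A.map (ch (algebraMap R K) G) := by rw [← Matrix.map_mul, hA]
  have hgK : tf (ind K g) (A.map (ch (algebraMap R K) G)) ≠ 0 := by
    rw [tf_ch]
    intro h0
    exact hne ((IsFractionRing.injective R K) (by rw [h0, map_zero]))
  obtain ⟨L, _, _, _, B, θ, hB⟩ := exists_alg K (cofs (A.map (ch (algebraMap R K) G))
    (tf (ind K g) (A.map (ch (algebraMap R K) G)))⁻¹)
  obtain ⟨E', hE', hgL⟩ := spec_step _ hE g hgK B θ hB
  obtain ⟨m, hm0, hm⟩ := exists_red L (cofs E' (tf (ind L g) E')⁻¹)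
  refine ⟨m, hm0, fun p hp hpm => ?_⟩
  obtain ⟨k, _, _, B', θ', hB'⟩ := hm p hp hpm
  obtain ⟨E'', hE'', hgk⟩ := spec_step _ hE' g hgL B' θ' hB'
  exact ⟨k, inferInstance, inferInstance, n, E'', hE'', g, hg, hgk⟩

section twist

variable {F : Type} [Field F] {G H : Type} [Group G] [Group H]

theorem comm_lr (x : MonoidAlgebra F G) (y : MonoidAlgebra F H) :
    Commute (gr F (MonoidHom.inl G H) x) (gr F (MonoidHom.inr G H) y) := by
  induction x using MonoidAlgebra.induction_linear with
  | zero => rw [map_zero]; exact Commute.zero_left _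
  | add x x' hx hx' => rw [map_add]; exact hx.add_left hx'
  | single g r =>
    induction y using MonoidAlgebra.induction_linear with
    | zero => rw [map_zero]; exact Commute.zero_right _
    | add y y' hy hy' => rw [map_add]; exact hy.add_right hy'
    | single h s =>
      show _ * _ = _ * _
      rw [gr, gr, mapDomainRingHom_apply, mapDomainRingHom_apply, mapDomain_single,
        mapDomain_single, single_mul_single, single_mul_single, mul_comm r s]
      simp

theorem ell_lr (x : MonoidAlgebra F G) (y : MonoidAlgebra F H) (g : G) (h : H) :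
    ell (ind F (g, h)) (gr F (MonoidHom.inl G H) x * gr F (MonoidHom.inr G H) y) =
      ell (ind F g) x * ell (ind F h) y := by
  induction x using MonoidAlgebra.induction_linear with
  | zero => simp
  | add x x' hx hx' => rw [map_add, add_mul, map_add, map_add, add_mul, hx, hx']
  | single g' r =>
    induction y using MonoidAlgebra.induction_linear with
    | zero => simp
    | add y y' hy hy' => rw [map_add, mul_add, map_add, map_add, mul_add, hy, hy']
    | single h' s =>
      rw [gr, gr, mapDomainRingHom_apply, mapDomainRingHom_apply, mapDomain_single,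
        mapDomain_single, single_mul_single, ell_single, ell_single, ell_single]
      have h1 : IsConj ((MonoidHom.inl G H) g' * (MonoidHom.inr G H) h') (g, h) ↔
          IsConj g' g ∧ IsConj h' h := by
        rw [isConj_iff, isConj_iff, isConj_iff]
        constructor
        · rintro ⟨⟨a, b⟩, hab⟩
          have h2 := congrArg Prod.fst hab
          have h3 := congrArg Prod.snd hab
          simp at h2 h3
          exact ⟨⟨a, by simpa using h2⟩, ⟨b, by simpa using h3⟩⟩
        · rintro ⟨⟨a, ha⟩, ⟨b, hb⟩⟩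
          exact ⟨(a, b), Prod.ext (by simpa using ha) (by simpa using hb)⟩
      have h2 : ind F (g, h) ((MonoidHom.inl G H) g' * (MonoidHom.inr G H) h') =
          ind F g g' * ind F h h' := by
        unfold ind
        by_cases h3 : IsConj g' g
        · by_cases h4 : IsConj h' h
          · rw [if_pos (h1.2 ⟨h3, h4⟩), if_pos h3, if_pos h4, mul_one]
          · rw [if_neg (fun h5 => h4 (h1.1 h5).2), if_neg h4, mul_zero]
        · rw [if_neg (fun h5 => h3 (h1.1 h5).1), if_neg h3, zero_mul]
      rw [h2]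
      ring

end twist

section idem

variable (F : Type) [Field F] [Fintype F] [DecidableEq F]

/-- the sum of all `u` with coefficient `1 / u` -/
noncomputable def ssum : MonoidAlgebra F Fˣ := ∑ u : Fˣ, single u ((u⁻¹ : Fˣ) : F)

theorem ssum_sq : ssum F * ssum F = -ssum F := by
  have h1 : ∀ u : Fˣ, single u ((u⁻¹ : Fˣ) : F) * ssum F = ssum F := by
    intro u
    unfold ssum
    rw [Finset.mul_sum]
    refine Fintype.sum_equiv (Equiv.mulLeft u) _ _ ?_
    intro v
    rw [single_mul_single]
    simp [mul_comm]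
  have h2 : ssum F * ssum F = ∑ u : Fˣ, single u ((u⁻¹ : Fˣ) : F) * ssum F := by
    conv_lhs => rw [ssum, Finset.sum_mul]
    rfl
  rw [h2, Finset.sum_congr rfl (fun u _ => h1 u), Finset.sum_const, Finset.card_univ,
    Fintype.card_units]
  have h3 : ((Fintype.card F - 1 : ℕ) : MonoidAlgebra F Fˣ) = -1 := by
    rw [Nat.cast_sub Fintype.card_pos, Nat.cast_one]
    have h4 : ((Fintype.card F : ℕ) : MonoidAlgebra F Fˣ) = 0 := by
      have h5 : ((Fintype.card F : ℕ) : F) = 0 := FiniteField.cast_card_eq_zero F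
      have h6 := congrArg (algebraMap F (MonoidAlgebra F Fˣ)) h5
      rwa [map_natCast, map_zero] at h6
    rw [h4, zero_sub]
  rw [nsmul_eq_mul, h3]
  ring

theorem ell_ssum (u : Fˣ) : ell (ind F u) (ssum F) = ((u⁻¹ : Fˣ) : F) := by
  unfold ssum
  rw [map_sum]
  rw [Finset.sum_eq_single u]
  · rw [ell_single]
    unfold ind
    rw [if_pos (IsConj.refl _), mul_one]
  · intro v _ hv
    rw [ell_single]
    unfold ind
    rw [if_neg (fun h => hv (isConj_iff_eq.1 h)), mul_zero]
  · intro h
    exact absurd (Finset.mem_univ _) h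

end idem

/-- twisting: every nonzero value occurs for the product with the units of the field -/
theorem twist {F : Type} [Field F] [Fintype F] [DecidableEq F] {G : Type} [Group G] {n : ℕ}
    (A : Matrix (Fin n) (Fin n) (MonoidAlgebra F G)) (hA : A * A = A) (u : Fˣ) :
    ∃ B : Matrix (Fin n) (Fin n) (MonoidAlgebra F (G × Fˣ)), B * B = B ∧
      ∀ g : G, tf (ind F (g, u)) B = -(tf (ind F g) A * ((u⁻¹ : Fˣ) : F)) := by
  let e : MonoidAlgebra F (G × Fˣ) := gr F (MonoidHom.inr G Fˣ) (-ssum F)
  have he : e * e = e := by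
    show gr F _ _ * gr F _ _ = gr F _ _
    rw [← map_mul, neg_mul_neg, ssum_sq]
  refine ⟨Matrix.of fun i j => gr F (MonoidHom.inl G Fˣ) (A i j) * e, ?_, ?_⟩
  · ext1 i j
    rw [Matrix.mul_apply]
    simp only [Matrix.of_apply]
    have h1 : ∀ k, gr F (MonoidHom.inl G Fˣ) (A i k) * e * (gr F (MonoidHom.inl G Fˣ) (A k j) * e) =
        gr F (MonoidHom.inl G Fˣ) (A i k * A k j) * e := by
      intro k
      have h2 : e * gr F (MonoidHom.inl G Fˣ) (A k j) = gr F (MonoidHom.inl G Fˣ) (A k j) * e :=
        ((comm_lr (A k j) (-ssum F)).eq).symm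
      calc _ = gr F (MonoidHom.inl G Fˣ) (A i k) * (e * gr F (MonoidHom.inl G Fˣ) (A k j)) * e := by
            simp only [mul_assoc]
        _ = gr F (MonoidHom.inl G Fˣ) (A i k) * gr F (MonoidHom.inl G Fˣ) (A k j) * (e * e) := by
            rw [h2]; simp only [mul_assoc]
        _ = _ := by rw [he, map_mul]
    rw [Finset.sum_congr rfl (fun k _ => h1 k), ← Finset.sum_mul, ← map_sum]
    congr 2
    have h3 := congrFun (congrFun hA i) j
    rwa [Matrix.mul_apply] at h3
  · intro g
    rw [tf_apply, tf_apply]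
    simp only [Matrix.of_apply]
    have h1 : ∀ i, ell (ind F (g, u)) (gr F (MonoidHom.inl G Fˣ) (A i i) * e) =
        -(ell (ind F g) (A i i) * ((u⁻¹ : Fˣ) : F)) := by
      intro i
      rw [show e = gr F (MonoidHom.inr G Fˣ) (-ssum F) from rfl, ell_lr, map_neg, ell_ssum]
      ring
    rw [Finset.sum_congr rfl (fun i _ => h1 i), Finset.sum_neg_distrib, Finset.sum_mul]

section restrict

variable (K : Type) {F : Type} [Field K] [Field F] [Algebra K F] {G : Type} [Group G]
  {ι : Type} [Fintype ι] [DecidableEq ι] (b : Module.Basis ι K F)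

/-- the group ring over `F` as matrices over the group ring over `K` -/
noncomputable def rho : MonoidAlgebra F G →+* Matrix ι ι (MonoidAlgebra K G) :=
  liftNCRingHom
    ((RingHom.mapMatrix (singleOneRingHom : K →+* MonoidAlgebra K G)).comp
      (Algebra.leftMulMatrix b).toRingHom)
    ((Matrix.scalar ι).toMonoidHom.comp (MonoidAlgebra.of K G))
    (by
      intro x g
      show _ * _ = _ * _
      ext1 i j
      simp [Matrix.scalar_apply, Matrix.mul_diagonal, Matrix.diagonal_mul, single_mul_single])

theorem rho_single (g : G) (a : F) (i j : ι) :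
    rho K b (single g a) i j = single g (Algebra.leftMulMatrix b a i j) := by
  unfold rho
  simp [liftNCRingHom, Matrix.scalar_apply, Matrix.mul_diagonal, single_mul_single]

theorem ell_rho (g : G) (x : MonoidAlgebra F G) :
    ∑ i, ell (ind K g) (rho K b x i i) = Algebra.trace K F (ell (ind F g) x) := by
  classical
  induction x using MonoidAlgebra.induction_linear with
  | zero => simp
  | add x y hx hy =>
    rw [map_add, map_add, map_add, ← hx, ← hy, ← Finset.sum_add_distrib]
    apply Finset.sum_congr rfl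
    intro i _
    rw [Matrix.add_apply, map_add]
  | single h r =>
    have h1 : ∀ i, ell (ind K g) (rho K b (single h r) i i) =
        Algebra.leftMulMatrix b r i i * ind K g h := by
      intro i
      rw [rho_single, ell_single]
    rw [Finset.sum_congr rfl (fun i _ => h1 i), ← Finset.sum_mul, ell_single]
    unfold ind
    split_ifs with h2
    · rw [mul_one, mul_one, Algebra.trace_eq_matrix_trace b]
      rfl
    · rw [mul_zero, mul_zero, map_zero]

include b in
/-- restriction of scalars -/
theorem restrict {n : ℕ} (A : Matrix (Fin n) (Fin n) (MonoidAlgebra F G)) (hA : A * A = A) :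
    ∃ (m : ℕ) (B : Matrix (Fin m) (Fin m) (MonoidAlgebra K G)), B * B = B ∧
      ∀ g : G, tf (ind K g) B = Algebra.trace K F (tf (ind F g) A) := by
  classical
  let X : Matrix (Fin n) (Fin n) (Matrix ι ι (MonoidAlgebra K G)) := A.map (rho K b)
  have hX : X * X = X := by
    show A.map (rho K b) * A.map (rho K b) = A.map (rho K b)
    rw [← Matrix.map_mul, hA]
  let Y : Matrix (Fin n × ι) (Fin n × ι) (MonoidAlgebra K G) :=
    Matrix.compRingEquiv (Fin n) ι (MonoidAlgebra K G) X
  have hY : Y * Y = Y := by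
    show Matrix.compRingEquiv (Fin n) ι (MonoidAlgebra K G) X *
      Matrix.compRingEquiv (Fin n) ι (MonoidAlgebra K G) X = _
    rw [← map_mul, hX]
  let e : Fin n × ι ≃ Fin (Fintype.card (Fin n × ι)) := Fintype.equivFin _
  refine ⟨Fintype.card (Fin n × ι), Matrix.reindexRingEquiv _ e Y, by rw [← map_mul, hY], ?_⟩
  intro g
  rw [tf_apply, tf_apply, map_sum]
  have h1 : ∀ i : Fin n, Algebra.trace K F (ell (ind F g) (A i i)) =
      ∑ a : ι, ell (ind K g) (Y (i, a) (i, a)) := by
    intro i
    rw [← ell_rho K b]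
    rfl
  rw [Finset.sum_congr rfl (fun i _ => h1 i), ← Fintype.sum_prod_type'
    (f := fun i a => ell (ind K g) (Y (i, a) (i, a)))]
  refine Fintype.sum_equiv e.symm _ _ ?_
  intro x
  rfl

end restrict

/-- from finite fields to prime fields -/
theorem bad_prime {p : ℕ} (hp : p.Prime) {F : Type} [Field F] [Finite F] [CharP F p] {G : Type}
    [Group G] (h : Bad F G) : Bad (ZMod p) (G × Fˣ) := by
  classical
  have hfact : Fact p.Prime := ⟨hp⟩
  have hft : Fintype F := Fintype.ofFinite F
  let _ : Algebra (ZMod p) F := ZMod.algebra F p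
  have hfin : FiniteDimensional (ZMod p) F := inferInstance
  obtain ⟨n, A, hA, g, hg, hne⟩ := h
  obtain ⟨c, hc⟩ : ∃ c : F, Algebra.trace (ZMod p) F c ≠ 0 := by
    by_contra hcon
    push Not at hcon
    exact Algebra.trace_ne_zero (ZMod p) F (LinearMap.ext hcon)
  have hc0 : c ≠ 0 := by
    rintro rfl
    exact hc (map_zero _)
  let u : Fˣ := Units.mk0 (-(tf (ind F g) A) * c⁻¹) (mul_ne_zero (neg_ne_zero.2 hne)
    (inv_ne_zero hc0))
  obtain ⟨B, hB, hB2⟩ := twist A hA u
  obtain ⟨m, D, hD, hD2⟩ := restrict (ZMod p) (Module.finBasis (ZMod p) F) B hB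
  refine ⟨m, D, hD, (g, u), ?_, ?_⟩
  · by_contra h0
    obtain ⟨k, hk, hk'⟩ := isOfFinOrder_iff_pow_eq_one.1 (orderOf_pos_iff.1 (Nat.pos_of_ne_zero h0))
    have h7 : g ^ k = 1 := congrArg Prod.fst hk'
    have h8 := orderOf_pos_iff.2 (isOfFinOrder_iff_pow_eq_one.2 ⟨k, hk, h7⟩)
    omega
  · rw [hD2, hB2]
    have h1 : -(tf (ind F g) A * ((u⁻¹ : Fˣ) : F)) = c := by
      have h2 : ((u⁻¹ : Fˣ) : F) = (-(tf (ind F g) A) * c⁻¹)⁻¹ := by
        simp [u]
      rw [h2]
      field_simp
    rw [h1]
    exact hc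

end Pool.Agent.U181.TG
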