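import Pool.Agent.U181.TG.K0
import Pool.Agent.Y75.NK.Lau

/-! Idempotent matrices over the group rings of `M × Γ`, `Γ` torsion-free, come from the largest
torsion-free quotients of finitely presented groups; negative `K`-groups. -/

set_option autoImplicit false

namespace Pool.Agent.U181.TG

open Matrix CategoryTheory Pool.Agent.Y75

section lift

variable {R : Type} [Ring R]

/-- the homomorphism `id × φ` -/
abbrev ix (M : Type) [Group M] {F G : Type} [Group F] [Group G] (φ : F →* G) : M × F →* M × G :=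
  MonoidHom.prodMap (MonoidHom.id M) φ

theorem exists_free_liftP (M : Type) [Group M] {Γ : Type} [Group Γ] {n : ℕ}
    (A : Matrix (Fin n) (Fin n) (MonoidAlgebra R (M × Γ))) :
    ∃ (r : ℕ) (φ : FreeGroup (Fin r) →* Γ)
      (A' : Matrix (Fin n) (Fin n) (MonoidAlgebra R (M × FreeGroup (Fin r)))),
      A'.map (gr R (ix M φ)) = A := by
  classical
  let T : Finset Γ := Finset.univ.biUnion fun i => Finset.univ.biUnion fun j =>
    (A i j).coeff.support.image Prod.snd
  let e := T.equivFin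
  let φ : FreeGroup (Fin T.card) →* Γ := FreeGroup.lift fun k => ((e.symm k : T) : Γ)
  have hT : ∀ g ∈ T, ∃ w, φ w = g := by
    intro g hg
    refine ⟨FreeGroup.of (e ⟨g, hg⟩), ?_⟩
    simp [φ]
  obtain ⟨A', hA'⟩ := lift_existsM (R := R) (ix M φ) A fun i j g hg => by
    obtain ⟨w, hw⟩ := hT g.2 (Finset.mem_biUnion.2 ⟨i, Finset.mem_univ _,
      Finset.mem_biUnion.2 ⟨j, Finset.mem_univ _, Finset.mem_image_of_mem _ hg⟩⟩)
    exact ⟨(g.1, w), Prod.ext rfl hw⟩
  exact ⟨_, φ, A', hA'⟩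

/-- an idempotent matrix over `R[M × Γ]`, `Γ` torsion-free, comes from `R[M × Q]` for the largest
torsion-free quotient `Q` of a finitely presented group -/
theorem idem_lift (M : Type) [Group M] {Γ : Type} [Group Γ] (hΓ : TorsionFree Γ) {n : ℕ}
    (E : Matrix (Fin n) (Fin n) (MonoidAlgebra R (M × Γ))) (hE : E * E = E) :
    ∃ (r : ℕ) (S : Finset (FreeGroup (Fin r))) (φ : TFQuotient r S →* Γ)
      (E₀ : Matrix (Fin n) (Fin n) (MonoidAlgebra R (M × TFQuotient r S))),
      E₀ * E₀ = E₀ ∧ E₀.map (gr R (ix M φ)) = E := by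
  classical
  obtain ⟨r, φ, E', hE'⟩ := exists_free_liftP M E
  let S : Finset (FreeGroup (Fin r)) :=
    ((WT (hypK E')).filter fun w => ix M φ w = 1).image Prod.snd
  let q : FreeGroup (Fin r) →* TFQuotient r S := QuotientGroup.mk' _
  have hS : tfClosure (S : Set (FreeGroup (Fin r))) ≤ φ.ker := by
    refine tfClosure_le hΓ φ _ fun w hw => ?_
    obtain ⟨p, hp, rfl⟩ := Finset.mem_image.1 (Finset.mem_coe.1 hw)
    exact congrArg Prod.snd (Finset.mem_filter.1 hp).2
  let φ' : TFQuotient r S →* Γ := QuotientGroup.lift _ φ fun w hw => hS hw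
  have hφ' : φ'.comp q = φ := by
    ext w
    rfl
  have h1 : Sat (hypK E') (ix M q) := by
    refine sat_of (hypK E') (ix M φ) (ix M q) (fun w hw h1 => ?_) ?_
    · have h2 : w.2 ∈ S := Finset.mem_image.2 ⟨w, Finset.mem_filter.2 ⟨hw, h1⟩, rfl⟩
      have h3 : q w.2 = 1 := (QuotientGroup.eq_one_iff _).2
        (subset_tfClosure _ (Finset.mem_coe.2 h2))
      have h4 : w.1 = 1 := congrArg Prod.fst h1
      exact Prod.ext h4 h3
    · rw [hypK_iff, hE', hE]
  refine ⟨r, S, φ', E'.map (gr R (ix M q)), (hypK_iff E' _).1 h1, ?_⟩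
  rw [map_map_gr]
  have h5 : (ix M φ').comp (ix M q) = ix M φ := by
    apply MonoidHom.ext
    intro x
    exact Prod.ext rfl rfl
  rw [h5, hE']

/-- the same for idempotent matrices over `R[Γ]` -/
theorem idem_lift' {Γ : Type} [Group Γ] (hΓ : TorsionFree Γ) {n : ℕ}
    (E : Matrix (Fin n) (Fin n) (MonoidAlgebra R Γ)) (hE : E * E = E) :
    ∃ (r : ℕ) (S : Finset (FreeGroup (Fin r))) (φ : TFQuotient r S →* Γ)
      (E₀ : Matrix (Fin n) (Fin n) (MonoidAlgebra R (TFQuotient r S))),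
      E₀ * E₀ = E₀ ∧ E₀.map (gr R φ) = E := by
  obtain ⟨r, S, φ, E₀, h1, h2⟩ := idem_lift Unit hΓ (E.map (gr R (MonoidHom.inr Unit Γ)))
    (by rw [← map_mul_gr, hE])
  refine ⟨r, S, φ, E₀.map (gr R (MonoidHom.snd Unit _)), by rw [← map_mul_gr, h1], ?_⟩
  have h3 : (E₀.map (gr R (ix Unit φ))).map (gr R (MonoidHom.snd Unit Γ)) = E := by
    rw [h2, map_map_gr]
    have h4 : (MonoidHom.snd Unit Γ).comp (MonoidHom.inr Unit Γ) = MonoidHom.id Γ := rfl
    rw [h4]
    ext1 i j
    simp only [Matrix.map_apply, gr, MonoidAlgebra.mapDomainRingHom_id]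
    rfl
  rw [map_map_gr] at h3 ⊢
  have h5 : φ.comp (MonoidHom.snd Unit (TFQuotient r S)) =
      (MonoidHom.snd Unit Γ).comp (ix Unit φ) := by
    apply MonoidHom.ext
    intro x
    rfl
  rw [h5]
  exact h3

end lift

section neg

variable (R : Type) [Ring R]

/-- Bass's group `K_{-m}(R[G])`, where `K_0` is the Grothendieck group of the idempotent matrices and
`K_{-m-1}(A)` is the cokernel of `K_{-m}(A[t]) ⊕ K_{-m}(A[t⁻¹]) → K_{-m}(A[t, t⁻¹])` -/
noncomputable abbrev KN (m : ℕ) (G : Type) [Group G] : Type :=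
  (NK.Kneg m).obj ((NK.gr R).obj (GrpCat.of G))

/-- the map of the groups `K_{-m}(R[G])` induced by a homomorphism of groups -/
noncomputable def kmap (m : ℕ) {G H : Type} [Group G] [Group H] (f : G →* H) :
    KN R m G →+ KN R m H :=
  ((NK.gr R ⋙ NK.Kneg m).map (GrpCat.ofHom f)).hom

theorem kmap_retract (m : ℕ) {G H : Type} [Group G] [Group H] (f : G →* H) (g : H →* G)
    (h : g.comp f = MonoidHom.id G) (x : KN R m G) : kmap R m g (kmap R m f x) = x := by
  have h1 : GrpCat.ofHom f ≫ GrpCat.ofHom g = 𝟙 (GrpCat.of G) := by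
    rw [← GrpCat.ofHom_comp, h]
    rfl
  have h2 : (NK.gr R ⋙ NK.Kneg m).map (GrpCat.ofHom f) ≫
      (NK.gr R ⋙ NK.Kneg m).map (GrpCat.ofHom g) = 𝟙 _ := by
    rw [← CategoryTheory.Functor.map_comp, h1, CategoryTheory.Functor.map_id]
  exact congrArg (fun z => z.hom x) h2

theorem KN_retract (m : ℕ) {G H : Type} [Group G] [Group H] (f : G →* H) (g : H →* G)
    (h : g.comp f = MonoidHom.id G) (hH : Subsingleton (KN R m H)) : Subsingleton (KN R m G) :=
  ⟨fun x y => by
    rw [← kmap_retract R m f g h x, ← kmap_retract R m f g h y,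
      @Subsingleton.elim _ hH (kmap R m f x) (kmap R m f y)]⟩

/-- the class in `K_{-1}(R[G])` of an idempotent matrix over `R[ℤ × G]` -/
noncomputable def kap (G : Type) [Group G] :
    NK.K0 (MonoidAlgebra R (Multiplicative ℤ × G)) →+ KN R 1 G :=
  ((NK.kclT R 1).app (GrpCat.of G)).hom

theorem kap_surj (G : Type) [Group G] : Function.Surjective (kap R G) :=
  NK.kclT_surj R 1 (GrpCat.of G)

theorem kap_nat {G H : Type} [Group G] [Group H] (f : G →* H)
    (x : NK.K0 (MonoidAlgebra R (Multiplicative ℤ × G))) :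
    kap R H (NK.K0.map (gr R (ix (Multiplicative ℤ) f)) x) = kmap R 1 f (kap R G x) :=
  congrArg (fun z => z.hom x) ((NK.kclT R 1).naturality (GrpCat.ofHom f))

theorem KN_one_of_classes (G : Type) [Group G]
    (h : ∀ (n : ℕ) (E : Matrix (Fin n) (Fin n) (MonoidAlgebra R (Multiplicative ℤ × G)))
      (hE : E * E = E), kap R G (NK.cls ⟨n, E, hE⟩) = 0) : Subsingleton (KN R 1 G) := by
  have h1 : kap R G = 0 := NK.K0.hom_ext fun e => h e.n e.e e.idem
  have h2 : ∀ x : KN R 1 G, x = 0 := fun x => by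
    obtain ⟨y, rfl⟩ := kap_surj R G x
    rw [h1]
    rfl
  exact ⟨fun x y => (h2 x).trans (h2 y).symm⟩

/-- the largest torsion-free quotients of finitely presented groups decide the vanishing of
`K_{-1}(R[Γ])` -/
theorem KN_one_of_tfQuotients (h : ∀ (r : ℕ) (S : Finset (FreeGroup (Fin r))),
    Subsingleton (KN R 1 (TFQuotient r S))) (Γ : Type) [Group Γ] (hΓ : TorsionFree Γ) :
    Subsingleton (KN R 1 Γ) := by
  refine KN_one_of_classes R Γ fun n E hE => ?_
  obtain ⟨r, S, φ, E₀, h1, h2⟩ := idem_lift (Multiplicative ℤ) hΓ E hE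
  have h3 := kap_nat R φ (NK.cls ⟨n, E₀, h1⟩)
  have h4 : kap R (TFQuotient r S) (NK.cls ⟨n, E₀, h1⟩) = 0 :=
    @Subsingleton.elim _ (h r S) _ _
  rw [h4, map_zero, NK.K0.map_cls] at h3
  have h5 : NK.Idem.map (gr R (ix (Multiplicative ℤ) φ)) ⟨n, E₀, h1⟩ = ⟨n, E, hE⟩ := by
    unfold NK.Idem.map
    congr 1
  rwa [h5] at h3

/-- `K_{-m-1}(R[G])` is a quotient of `K_{-m}(R[ℤ × G])` -/
theorem KN_succ (m : ℕ) (G : Type) [Group G]
    (h : Subsingleton (KN R m (Multiplicative ℤ × G))) : Subsingleton (KN R (m + 1) G) := by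
  let i := (NK.Kneg m).mapIso ((NK.cur R).app (GrpCat.of G))
  have h1 : Subsingleton ((NK.Kneg m).obj ((NK.monF (Multiplicative ℤ)).obj
      ((NK.gr R).obj (GrpCat.of G)))) := by
    refine ⟨fun x y => ?_⟩
    have h2 : ∀ z, i.inv.hom (i.hom.hom z) = z := fun z =>
      congrArg (fun w => w.hom z) i.hom_inv_id
    have h3 : i.hom.hom x = i.hom.hom y := @Subsingleton.elim _ h _ _
    have h4 := h2 x
    rw [h3] at h4
    exact h4.symm.trans (h2 y)
  refine ⟨fun x y => ?_⟩
  obtain ⟨x', hx⟩ := QuotientAddGroup.mk'_surjective (NK.polySub (NK.Kneg m)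
    ((NK.gr R).obj (GrpCat.of G))) x
  obtain ⟨y', hy⟩ := QuotientAddGroup.mk'_surjective (NK.polySub (NK.Kneg m)
    ((NK.gr R).obj (GrpCat.of G))) y
  have h5 : x' = y' := @Subsingleton.elim _ h1 _ _
  rw [← hx, ← hy, h5]

theorem torsionFree_prod {G : Type} [Group G] (h : TorsionFree G) :
    TorsionFree (Multiplicative ℤ × G) := by
  rintro ⟨z, g⟩ k hk hg
  have h1 : z ^ k = 1 := congrArg Prod.fst hg
  have h2 : g ^ k = 1 := congrArg Prod.snd hg
  refine Prod.ext ?_ (h g k hk h2)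
  have h3 : k • (Multiplicative.toAdd z) = 0 := congrArg Multiplicative.toAdd h1
  have h4 : (k : ℤ) * Multiplicative.toAdd z = 0 := by
    rw [← h3]
    simp
  rcases mul_eq_zero.1 h4 with h5 | h5
  · omega
  · exact h5

theorem KN_all (h : ∀ (Γ : Type) [Group Γ], TorsionFree Γ → Subsingleton (KN R 1 Γ)) :
    ∀ (m : ℕ), 1 ≤ m → ∀ (Γ : Type) [Group Γ], TorsionFree Γ → Subsingleton (KN R m Γ) := by
  intro m hm
  induction m, hm using Nat.le_induction with
  | base => exact h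
  | succ m hm ih =>
    intro Γ _ hΓ
    exact KN_succ R m Γ (ih _ (torsionFree_prod hΓ))

end neg

end Pool.Agent.U181.TG
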