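import Pool.Agent.U181.TG.ClsDefs
import Pool.Agent.U181.TG.Neg

/-! Classes of groups closed under subgroups and direct products: every group of the class is exhausted
by the largest quotients of finitely presented groups, as far as idempotent matrices are concerned. -/

set_option autoImplicit false

namespace Pool.Agent.U181.TG

open Matrix CategoryTheory Pool.Agent.Y75

variable {C : ∀ (G : Type) [Group G], Prop}

theorem subset_quoKer {F : Type} [Group F] (S : Set F) : S ⊆ quoKer C S := by
  intro w hw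
  unfold quoKer
  rw [SetLike.mem_coe, Subgroup.mem_sInf]
  rintro N ⟨hN, -⟩
  exact hN hw

theorem quoKer_le {F Γ : Type} [Group F] [Group Γ] (hΓ : C Γ) (φ : F →* Γ) (S : Set F)
    (h : ∀ w ∈ S, φ w = 1) : quoKer C S ≤ φ.ker :=
  sInf_le ⟨fun w hw => h w hw, Γ, inferInstance, φ, hΓ, rfl⟩

theorem class_quotient (hC : ClosedSP C) {F : Type} [Group F] (S : Set F) :
    C (F ⧸ quoKer C S) := by
  classical
  let I : Type := {N : Subgroup F // S ⊆ N ∧ ∃ (G : Type) (_ : Group G) (f : F →* G), C G ∧ f.ker = N}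
  choose G iG f hG hf using fun N : I => N.2.2
  let φ : F →* (∀ N : I, G N) := MonoidHom.pi (fun N => f N)
  have hφ : ∀ x, φ x = 1 ↔ x ∈ quoKer C S := by
    intro x
    unfold quoKer
    rw [Subgroup.mem_sInf]
    constructor
    · intro h N hN
      have h1 : f ⟨N, hN⟩ x = 1 := congrFun h ⟨N, hN⟩
      have h2 : x ∈ (f ⟨N, hN⟩).ker := h1
      rwa [hf] at h2
    · intro h
      funext N
      have h1 : x ∈ N.1 := h N.1 N.2
      have h2 : x ∈ (f N).ker := by rw [hf]; exact h1
      exact h2
  let ψ : F ⧸ quoKer C S →* (∀ N : I, G N) := QuotientGroup.lift _ φ fun x hx => (hφ x).2 hx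
  refine hC.sub _ _ ψ ?_ (hC.prod I G hG)
  rw [injective_iff_map_eq_one]
  intro x hx
  obtain ⟨y, rfl⟩ := QuotientGroup.mk'_surjective _ x
  exact (QuotientGroup.eq_one_iff y).2 ((hφ y).1 hx)

theorem class_test (hC : ClosedSP C) : C (Test C) :=
  hC.sub _ _ (testSub C).subtype (testSub C).subtype_injective
    (hC.prod _ _ fun _ => class_quotient hC _)

theorem countable_test : Countable (Test C) := by
  classical
  have h1 : ∀ i : (Σ r : ℕ, Finset (FreeGroup (Fin r))), Countable (LQ C i.1 i.2) := by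
    intro i
    exact (QuotientGroup.mk'_surjective (quoKer C (i.2 : Set (FreeGroup (Fin i.1))))).countable
  let P : Type := Σ i : (Σ r : ℕ, Finset (FreeGroup (Fin r))), LQ C i.1 i.2
  have hfin : ∀ x : Test C, {i | x.val i ≠ 1}.Finite := fun x => x.2
  let F : Test C → Finset P := fun x =>
    (hfin x).toFinset.image fun i => (⟨i, x.val i⟩ : P)
  have hF : Function.Injective F := by
    intro x y hxy
    apply Subtype.ext
    funext i
    by_cases hx : x.val i = 1
    · by_cases hy : y.val i = 1
      · rw [hx, hy]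
      · have h2 : (⟨i, y.val i⟩ : P) ∈ F y := Finset.mem_image.2
          ⟨i, (Set.Finite.mem_toFinset _).2 hy, rfl⟩
        rw [← hxy] at h2
        obtain ⟨j, hj, hj'⟩ := Finset.mem_image.1 h2
        have h3 : j = i := congrArg Sigma.fst hj'
        subst h3
        exact eq_of_heq (Sigma.mk.inj hj').2
    · have h2 : (⟨i, x.val i⟩ : P) ∈ F x := Finset.mem_image.2
        ⟨i, (Set.Finite.mem_toFinset _).2 hx, rfl⟩
      rw [hxy] at h2
      obtain ⟨j, hj, hj'⟩ := Finset.mem_image.1 h2
      have h3 : j = i := congrArg Sigma.fst hj'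
      subst h3
      exact (eq_of_heq (Sigma.mk.inj hj').2).symm
  exact hF.countable

open Classical in
theorem test_retract (r : ℕ) (S : Finset (FreeGroup (Fin r))) :
    ∃ (f : LQ C r S →* Test C) (g : Test C →* LQ C r S), g.comp f = MonoidHom.id _ := by
  let fam : (Σ r : ℕ, Finset (FreeGroup (Fin r))) → Type := fun i => LQ C i.1 i.2
  let i : Σ r : ℕ, Finset (FreeGroup (Fin r)) := ⟨r, S⟩
  let e : LQ C r S →* (∀ i, fam i) := MonoidHom.mulSingle fam i
  have he : ∀ x j, j ≠ i → e x j = 1 := fun x j hj => Pi.mulSingle_eq_of_ne (M := fam) hj x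
  have he' : ∀ x, e x i = x := fun x => Pi.mulSingle_eq_same (M := fam) i x
  let f : LQ C r S →* Test C :=
    { toFun := fun x => ⟨e x, by
        change {j | e x j ≠ 1}.Finite
        refine (Set.finite_singleton i).subset ?_
        intro j hj
        by_contra hne
        exact hj (he x j hne)⟩
      map_one' := by
        apply Subtype.ext
        exact map_one e
      map_mul' := fun x y => by
        apply Subtype.ext
        exact map_mul e x y }
  let g : Test C →* LQ C r S :=
    { toFun := fun x => x.val i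
      map_one' := rfl
      map_mul' := fun x y => rfl }
  refine ⟨f, g, ?_⟩
  apply MonoidHom.ext
  intro x
  exact he' x

theorem closedSP_torsionFree : ClosedSP (fun G _ => TorsionFree G) where
  sub := by
    intro G H _ _ f hf h g k hk hg
    apply hf
    rw [map_one]
    exact h (f g) k hk (by rw [← map_pow, hg, map_one])
  prod := by
    intro I G _ h g k hk hg
    funext i
    exact h i (g i) k hk (congrFun hg i)

section lift

variable {R : Type} [Ring R]

/-- an idempotent matrix over `R[M × Γ]`, `Γ` in the class, comes from `R[M × Q]` for the largest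
quotient `Q` in the class of a finitely presented group -/
theorem idem_liftC (M : Type) [Group M] {Γ : Type} [Group Γ] (hΓ : C Γ) {n : ℕ}
    (E : Matrix (Fin n) (Fin n) (MonoidAlgebra R (M × Γ))) (hE : E * E = E) :
    ∃ (r : ℕ) (S : Finset (FreeGroup (Fin r))) (φ : LQ C r S →* Γ)
      (E₀ : Matrix (Fin n) (Fin n) (MonoidAlgebra R (M × LQ C r S))),
      E₀ * E₀ = E₀ ∧ E₀.map (gr R (ix M φ)) = E := by
  classical
  obtain ⟨r, φ, E', hE'⟩ := exists_free_liftP M E
  let S : Finset (FreeGroup (Fin r)) :=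
    ((WT (hypK E')).filter fun w => ix M φ w = 1).image Prod.snd
  let q : FreeGroup (Fin r) →* LQ C r S := QuotientGroup.mk' _
  have hS : quoKer C (S : Set (FreeGroup (Fin r))) ≤ φ.ker := by
    refine quoKer_le hΓ φ _ fun w hw => ?_
    obtain ⟨p, hp, rfl⟩ := Finset.mem_image.1 (Finset.mem_coe.1 hw)
    exact congrArg Prod.snd (Finset.mem_filter.1 hp).2
  let φ' : LQ C r S →* Γ := QuotientGroup.lift _ φ fun w hw => hS hw
  have hφ' : φ'.comp q = φ := by
    ext w
    rfl
  have h1 : Sat (hypK E') (ix M q) := by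
    refine sat_of (hypK E') (ix M φ) (ix M q) (fun w hw h1 => ?_) ?_
    · have h2 : w.2 ∈ S := Finset.mem_image.2 ⟨w, Finset.mem_filter.2 ⟨hw, h1⟩, rfl⟩
      have h3 : q w.2 = 1 := (QuotientGroup.eq_one_iff _).2
        (subset_quoKer _ (Finset.mem_coe.2 h2))
      have h4 : w.1 = 1 := congrArg Prod.fst h1
      exact Prod.ext h4 h3
    · rw [hypK_iff, hE', hE]
  refine ⟨r, S, φ', E'.map (gr R (ix M q)), (hypK_iff E' _).1 h1, ?_⟩
  rw [map_map_gr]
  have h5 : (ix M φ').comp (ix M q) = ix M φ := by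
    apply MonoidHom.ext
    intro x
    exact Prod.ext rfl rfl
  rw [h5, hE']

/-- the same for idempotent matrices over `R[Γ]` -/
theorem idem_liftC' {Γ : Type} [Group Γ] (hΓ : C Γ) {n : ℕ}
    (E : Matrix (Fin n) (Fin n) (MonoidAlgebra R Γ)) (hE : E * E = E) :
    ∃ (r : ℕ) (S : Finset (FreeGroup (Fin r))) (φ : LQ C r S →* Γ)
      (E₀ : Matrix (Fin n) (Fin n) (MonoidAlgebra R (LQ C r S))),
      E₀ * E₀ = E₀ ∧ E₀.map (gr R φ) = E := by
  obtain ⟨r, S, φ, E₀, h1, h2⟩ := idem_liftC Unit hΓ (E.map (gr R (MonoidHom.inr Unit Γ)))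
    (by rw [← map_mul_gr, hE])
  refine ⟨r, S, φ, E₀.map (gr R (MonoidHom.snd Unit _)), by rw [← map_mul_gr, h1], ?_⟩
  have h3 : (E₀.map (gr R (ix Unit φ))).map (gr R (MonoidHom.snd Unit Γ)) = E := by
    rw [h2, map_map_gr]
    have h4 : (MonoidHom.snd Unit Γ).comp (MonoidHom.inr Unit Γ) = MonoidHom.id Γ := rfl
    rw [h4]
    ext1 i j
    simp only [Matrix.map_apply, gr, MonoidAlgebra.mapDomainRingHom_id]
    rfl
  rw [map_map_gr] at h3 ⊢
  have h5 : φ.comp (MonoidHom.snd Unit (LQ C r S)) =
      (MonoidHom.snd Unit Γ).comp (ix Unit φ) := by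
    apply MonoidHom.ext
    intro x
    rfl
  rw [h5]
  exact h3

end lift

section neg

variable (R : Type) [Ring R]

theorem KN_one_of_LQ (h : ∀ (r : ℕ) (S : Finset (FreeGroup (Fin r))),
    Subsingleton (KN R 1 (LQ C r S))) (Γ : Type) [Group Γ] (hΓ : C Γ) :
    Subsingleton (KN R 1 Γ) := by
  refine KN_one_of_classes R Γ fun n E hE => ?_
  obtain ⟨r, S, φ, E₀, h1, h2⟩ := idem_liftC (Multiplicative ℤ) hΓ E hE
  have h3 := kap_nat R φ (NK.cls ⟨n, E₀, h1⟩)
  have h4 : kap R (LQ C r S) (NK.cls ⟨n, E₀, h1⟩) = 0 :=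
    @Subsingleton.elim _ (h r S) _ _
  rw [h4, map_zero, NK.K0.map_cls] at h3
  have h5 : NK.Idem.map (gr R (ix (Multiplicative ℤ) φ)) ⟨n, E₀, h1⟩ = ⟨n, E, hE⟩ := by
    unfold NK.Idem.map
    congr 1
  rwa [h5] at h3

theorem KN_tfae (hC : ClosedSP C) :
    List.TFAE
      [∀ (Γ : Type) [Group Γ], C Γ → Subsingleton (KN R 1 Γ),
        ∀ (r : ℕ) (S : Finset (FreeGroup (Fin r))), Subsingleton (KN R 1 (LQ C r S)),
        Subsingleton (KN R 1 (Test C))] := by
  tfae_have 1 → 3 := fun h => h _ (class_test hC)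
  tfae_have 3 → 2 := fun h r S => by
    obtain ⟨f, g, hgf⟩ := test_retract (C := C) r S
    exact KN_retract R 1 f g hgf h
  tfae_have 2 → 1 := fun h Γ _ hΓ => KN_one_of_LQ R h Γ hΓ
  tfae_finish

/-- two groups as a family -/
def famB (A B : Type) : Bool → Type
  | true => A
  | false => B

instance famBGroup (A B : Type) [Group A] [Group B] : ∀ b, Group (famB A B b)
  | true => inferInstanceAs (Group A)
  | false => inferInstanceAs (Group B)

/-- the product of two groups as the product of a family -/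
def toFamB (A B : Type) [Group A] [Group B] : A × B →* (∀ b, famB A B b) where
  toFun x b := match b with
    | true => x.1
    | false => x.2
  map_one' := by
    funext b
    cases b <;> rfl
  map_mul' x y := by
    funext b
    cases b <;> rfl

theorem class_prodZ (hC : ClosedSP C) (hZ : C (Multiplicative ℤ)) {G : Type} [Group G] (h : C G) :
    C (Multiplicative ℤ × G) := by
  have h1 : C (∀ b, famB (Multiplicative ℤ) G b) :=
    hC.prod Bool (famB (Multiplicative ℤ) G) fun b => match b with
      | true => hZ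
      | false => h
  refine hC.sub _ _ (toFamB (Multiplicative ℤ) G) ?_ h1
  intro x y hxy
  exact Prod.ext (congrFun hxy true) (congrFun hxy false)

theorem KN_allC (hC : ClosedSP C) (hZ : C (Multiplicative ℤ))
    (h : ∀ (Γ : Type) [Group Γ], C Γ → Subsingleton (KN R 1 Γ)) :
    ∀ (m : ℕ), 1 ≤ m → ∀ (Γ : Type) [Group Γ], C Γ → Subsingleton (KN R m Γ) := by
  intro m hm
  induction m, hm using Nat.le_induction with
  | base => exact h
  | succ m hm ih =>
    intro Γ _ hΓ
    exact KN_succ R m Γ (ih _ (class_prodZ hC hZ hΓ))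

end neg

end Pool.Agent.U181.TG
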