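import Mathlib

/-! Every countable group embeds in a two-generator subgroup of an iterated unrestricted wreath product
with the infinite cyclic group, such that elements which become conjugate were conjugate before. -/

set_option autoImplicit false

namespace Pool.Agent.U181.TG

open RegularWreathProduct

/-- the unrestricted wreath product of `G` and the infinite cyclic group -/
abbrev WrZ (G : Type) [Group G] : Type := G ≀ᵣ Multiplicative ℤ

theorem wext {G : Type} [Group G] {a b : WrZ G} (h1 : ∀ k, a.left k = b.left k)
    (h2 : a.right = b.right) : a = b :=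
  RegularWreathProduct.ext (funext h1) h2

section del

variable {G : Type} [Group G]

open Classical in
/-- the element of the wreath product with value `x` at one place -/
noncomputable def del : G →* WrZ G where
  toFun x := ⟨Pi.mulSingle 1 x, 1⟩
  map_one' := by
    ext
    · simp
    · rfl
  map_mul' x y := by
    ext k
    · simp [Pi.mulSingle_mul]
    · simp

open Classical in
theorem del_left (x : G) (k : Multiplicative ℤ) : (del x).left k = if k = 1 then x else 1 := by
  show (Pi.mulSingle 1 x : Multiplicative ℤ → G) k = _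
  rw [Pi.mulSingle_apply]

theorem del_right (x : G) : (del x).right = 1 := rfl

theorem del_injective : Function.Injective (del : G →* WrZ G) := by
  classical
  intro x y h
  have h1 := congrFun (congrArg RegularWreathProduct.left h) 1
  rw [del_left, del_left, if_pos rfl, if_pos rfl] at h1
  exact h1

theorem isConj_of_del {x y : G} (h : IsConj (del x) (del y)) : IsConj x y := by
  classical
  obtain ⟨c, hc⟩ := isConj_iff.1 h
  have h1 : c * del x = del y * c := by rw [← hc]; group
  have h2 : ∀ k, c.left k * (del x).left (c.right⁻¹ * k) = (del y).left k * c.left k := by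
    intro k
    have h3 := congrFun (congrArg RegularWreathProduct.left h1) k
    simpa [RegularWreathProduct.mul_left, del_right] using h3
  have h4 := h2 c.right
  rw [inv_mul_cancel, del_left, del_left, if_pos rfl] at h4
  by_cases h5 : c.right = 1
  · rw [if_pos h5, h5] at h4
    exact isConj_iff.2 ⟨c.left 1, by rw [h4]; group⟩
  · rw [if_neg h5, one_mul] at h4
    have h6 : x = 1 := mul_eq_left.1 h4
    have h7 := h2 1
    rw [mul_one, del_left, del_left, if_pos rfl, h6, ite_self, mul_one] at h7
    have h8 : y = 1 := (mul_eq_right (a := y)).1 h7.symm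
    rw [h6, h8]

end del

section emb

variable {T : Type} [Group T]

/-- the generator of the infinite cyclic group -/
def zz (G : Type) [Group G] : WrZ G := ⟨1, Multiplicative.ofAdd 1⟩

open Classical in
/-- the function with value `x` at the places `≥ 0` -/
noncomputable def half (x : T) : WrZ T := ⟨fun k => if 0 ≤ k.toAdd then x else 1, 1⟩

theorem half_comm (x : T) : half x * zz T * (half x)⁻¹ * (zz T)⁻¹ = del x := by
  classical
  ext k
  · have h0 : (half x * zz T * (half x)⁻¹ * (zz T)⁻¹).left k =
        (if 0 ≤ k.toAdd then x else 1) * (if 0 ≤ k.toAdd - 1 then x else 1)⁻¹ := by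
      simp only [half, zz, RegularWreathProduct.mul_left, RegularWreathProduct.mul_right,
        RegularWreathProduct.inv_left, RegularWreathProduct.inv_right, Pi.mul_apply, Pi.inv_apply,
        Pi.one_apply, one_mul, mul_one, inv_one]
      congr 2
      have h1 : (Multiplicative.toAdd ((Multiplicative.ofAdd (1 : ℤ))⁻¹ * k)) = k.toAdd - 1 := by
        rw [toAdd_mul, toAdd_inv, toAdd_ofAdd]
        ring
      rw [h1]
    rw [h0, del_left]
    by_cases h1 : k = 1
    · subst h1
      simp
    · rw [if_neg h1]
      have h2 : k.toAdd ≠ 0 := fun h => h1 (Multiplicative.toAdd.injective h)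
      by_cases h3 : 0 ≤ k.toAdd
      · rw [if_pos h3, if_pos (by omega), mul_inv_cancel]
      · rw [if_neg h3, if_neg (by omega), inv_one, mul_one]
  · simp [half, zz, del_right]

open Classical in
/-- the values of the second generator: the cyclic generator at `0`, and the functions `half` at the
powers of `3` -/
noncomputable def bfun (t : ℕ → T) (k : Multiplicative ℤ) : WrZ T :=
  if k.toAdd = 0 then zz T
  else if h : ∃ j : ℕ, k.toAdd = 3 ^ j then half (t h.choose) else 1

theorem bfun_zero (t : ℕ → T) (k : Multiplicative ℤ) (hk : k.toAdd = 0) : bfun t k = zz T := by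
  unfold bfun
  rw [if_pos hk]

theorem bfun_pow (t : ℕ → T) (k : Multiplicative ℤ) (j : ℕ) (hk : k.toAdd = 3 ^ j) :
    bfun t k = half (t j) := by
  unfold bfun
  have h1 : ∃ j : ℕ, k.toAdd = 3 ^ j := ⟨j, hk⟩
  have h2 : h1.choose = j := by
    have h3 := hk.symm.trans h1.choose_spec
    have h4 : (3 : ℕ) ^ j = 3 ^ h1.choose := by exact_mod_cast h3
    exact (Nat.pow_right_injective (le_refl 2 |>.trans (by norm_num)) h4).symm
  rw [if_neg (by rw [hk]; positivity), dif_pos h1, h2]

theorem bfun_else (t : ℕ → T) (k : Multiplicative ℤ) (h0 : k.toAdd ≠ 0)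
    (hk : ∀ j : ℕ, k.toAdd ≠ 3 ^ j) : bfun t k = 1 := by
  unfold bfun
  rw [if_neg h0, dif_neg (by push Not; exact hk)]

/-- the second generator -/
noncomputable def bb (t : ℕ → T) : WrZ (WrZ T) := ⟨bfun t, 1⟩

/-- the two-generator group -/
noncomputable def twoSub (t : ℕ → T) : Subgroup (WrZ (WrZ T)) :=
  Subgroup.closure {zz (WrZ T), bb t}

theorem comm_eq (t : ℕ → T) (j : ℕ) :
    ((zz (WrZ T))⁻¹ ^ 3 ^ j * bb t * zz (WrZ T) ^ 3 ^ j) * bb t *
      ((zz (WrZ T))⁻¹ ^ 3 ^ j * bb t * zz (WrZ T) ^ 3 ^ j)⁻¹ * (bb t)⁻¹ = del (del (t j)) := by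
  classical
  have hz : ∀ n : ℕ, zz (WrZ T) ^ n = ⟨1, Multiplicative.ofAdd (n : ℤ)⟩ := by
    intro n
    induction n with
    | zero => rw [pow_zero]; rfl
    | succ n ih =>
      rw [pow_succ, ih]
      apply wext
      · intro k
        simp [zz]
      · simp only [zz, RegularWreathProduct.mul_right]
        rw [← ofAdd_add]
        push_cast
        rfl
  have hc : (zz (WrZ T))⁻¹ ^ 3 ^ j * bb t * zz (WrZ T) ^ 3 ^ j =
      ⟨fun k => bfun t (Multiplicative.ofAdd (3 ^ j : ℤ) * k), 1⟩ := by
    rw [inv_pow, hz]
    apply wext
    · intro k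
      simp only [bb, RegularWreathProduct.mul_left, RegularWreathProduct.mul_right,
        RegularWreathProduct.inv_left, RegularWreathProduct.inv_right, Pi.mul_apply, Pi.inv_apply,
        Pi.one_apply, one_mul, mul_one, inv_one, inv_inv]
      push_cast
      rfl
    · simp [bb]
  rw [hc]
  apply wext
  · intro k
    have h0 : ((⟨fun k => bfun t (Multiplicative.ofAdd (3 ^ j : ℤ) * k), 1⟩ : WrZ (WrZ T)) * bb t *
        (⟨fun k => bfun t (Multiplicative.ofAdd (3 ^ j : ℤ) * k), 1⟩ : WrZ (WrZ T))⁻¹ *
          (bb t)⁻¹).left k =
        bfun t (Multiplicative.ofAdd (3 ^ j : ℤ) * k) * bfun t k *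
          (bfun t (Multiplicative.ofAdd (3 ^ j : ℤ) * k))⁻¹ * (bfun t k)⁻¹ := by
      simp only [bb, RegularWreathProduct.mul_left, RegularWreathProduct.mul_right,
        RegularWreathProduct.inv_left, RegularWreathProduct.inv_right, Pi.mul_apply, Pi.inv_apply,
        one_mul, mul_one, inv_one]
    rw [h0, del_left]
    have hk' : (Multiplicative.toAdd (Multiplicative.ofAdd (3 ^ j : ℤ) * k)) = 3 ^ j + k.toAdd := by
      rw [toAdd_mul, toAdd_ofAdd]
    by_cases hk : k = 1
    · subst hk
      rw [if_pos rfl, mul_one, bfun_pow t _ j (toAdd_ofAdd _), bfun_zero t 1 rfl, half_comm]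
    · rw [if_neg hk]
      have hk0 : k.toAdd ≠ 0 := fun h => hk (Multiplicative.toAdd.injective h)
      by_cases h1 : ∃ i : ℕ, k.toAdd = 3 ^ i
      · obtain ⟨i, hi⟩ := h1
        have hodd : ∀ i : ℕ, ((3 : ℤ) ^ i) % 2 = 1 := by
          intro i
          exact Int.odd_iff.1 (Odd.pow (by decide))
        have h2 : bfun t (Multiplicative.ofAdd (3 ^ j : ℤ) * k) = 1 := by
          apply bfun_else
          · rw [hk', hi]
            positivity
          · intro l hl
            rw [hk', hi] at hl
            have h3 := hodd j
            have h4 := hodd i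
            have h5 := hodd l
            omega
        rw [h2]
        group
      · push Not at h1
        rw [bfun_else t k hk0 h1]
        group
  · simp [bb, del_right]

/-- the embedding in the two-generator group -/
noncomputable def emb (t : ℕ → T) (ht : Function.Surjective t) : T →* twoSub t where
  toFun x := ⟨del (del x), by
    obtain ⟨j, rfl⟩ := ht x
    rw [← comm_eq]
    have h1 : zz (WrZ T) ∈ twoSub t := Subgroup.subset_closure (by simp)
    have h2 : bb t ∈ twoSub t := Subgroup.subset_closure (by simp)
    have h3 : (zz (WrZ T))⁻¹ ^ 3 ^ j * bb t * zz (WrZ T) ^ 3 ^ j ∈ twoSub t :=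
      mul_mem (mul_mem (pow_mem (inv_mem h1) _) h2) (pow_mem h1 _)
    exact mul_mem (mul_mem (mul_mem h3 h2) (inv_mem h3)) (inv_mem h2)⟩
  map_one' := by
    apply Subtype.ext
    simp
  map_mul' x y := by
    apply Subtype.ext
    simp

theorem emb_injective (t : ℕ → T) (ht : Function.Surjective t) :
    Function.Injective (emb t ht) := by
  intro x y h
  exact del_injective (del_injective (congrArg Subtype.val h))

theorem isConj_of_emb (t : ℕ → T) (ht : Function.Surjective t) {x y : T}
    (h : IsConj (emb t ht x) (emb t ht y)) : IsConj x y := by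
  have h1 : IsConj (del (del x)) (del (del y)) :=
    MonoidHom.map_isConj (twoSub t).subtype h
  exact isConj_of_del (isConj_of_del h1)

end emb

/-- Every countable group `T` embeds in a group with two generators which embeds in the iterated
unrestricted wreath product of `T` with the infinite cyclic group, and elements of `T` which become
conjugate were conjugate before. -/
theorem exists_twoGen (T : Type) [Group T] [Countable T] :
    ∃ (Γ : Type) (_ : Group Γ) (a b : Γ) (ι : T →* Γ) (κ : Γ →* WrZ (WrZ T)),
      Subgroup.closure {a, b} = ⊤ ∧ Function.Injective ι ∧ Function.Injective κ ∧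
        ∀ x y : T, IsConj (ι x) (ι y) → IsConj x y := by
  obtain ⟨t, ht⟩ := exists_surjective_nat T
  have ha : zz (WrZ T) ∈ twoSub t := Subgroup.subset_closure (by simp)
  have hb : bb t ∈ twoSub t := Subgroup.subset_closure (by simp)
  refine ⟨twoSub t, inferInstance, ⟨zz (WrZ T), ha⟩,
    ⟨bb t, hb⟩, emb t ht, (twoSub t).subtype, ?_,
    emb_injective t ht, Subtype.val_injective, fun x y h => isConj_of_emb t ht h⟩
  have h1 := Subgroup.closure_closure_coe_preimage (k := ({zz (WrZ T), bb t} : Set (WrZ (WrZ T))))
  refine Eq.trans (congrArg Subgroup.closure ?_) h1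
  ext x
  constructor
  · rintro (h | h)
    · left
      exact congrArg Subtype.val h
    · right
      exact congrArg Subtype.val h
  · rintro (h | h)
    · left
      exact Subtype.ext h
    · right
      exact Subtype.ext h

end Pool.Agent.U181.TG
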