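import Pool.Agent.U181.TG.BassDefs
import Pool.Agent.U181.TG.TwoGen
import Pool.Agent.U181.TG.Cls
import Pool.Agent.H26R2.Bass.Main
import Pool.Agent.H26R2.Bass.Ext
import Pool.Agent.H23R2.Lin

/-! The Bass trace conjecture: reduction to finite fields and to one group. -/

set_option autoImplicit false

namespace Pool.Agent.U181.TG

open Matrix MonoidAlgebra
open Pool.Agent.H26R2.Bass (ind ind_comm tau tau_eq ell_ch tf_ch exists_lift tf_zero_of_finite
  tf_zero_of_prime ell_class)
open Pool.Agent.H23R2.Cyc (ell ell_single tf tf_apply ell_mapDomain)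
open Pool.Agent.H26R2.IdemLI (ch ch_coeff ch_injective)

theorem hs_eq {R : Type} [CommRing R] {G : Type} [Group G] {n : ℕ}
    (A : Matrix (Fin n) (Fin n) (MonoidAlgebra R G)) (g : G) : hs A g = tf (ind R g) A :=
  tau_eq A g

/-- a bad idempotent: nonzero rank at an element of infinite order -/
def Bad (R : Type) [CommRing R] (G : Type) [Group G] : Prop :=
  ∃ (n : ℕ) (A : Matrix (Fin n) (Fin n) (MonoidAlgebra R G)), A * A = A ∧
    ∃ g : G, orderOf g = 0 ∧ tf (ind R g) A ≠ 0

theorem bad_of_not_bass {R : Type} [CommRing R] [IsDomain R] {G : Type} [Group G]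
    (h : ¬ Bass R G) : Bad R G := by
  unfold Bass at h
  push Not at h
  obtain ⟨n, A, hA, g, hg, hne⟩ := h
  rw [hs_eq] at hne
  refine ⟨n, A, hA, g, ?_, hne⟩
  by_contra h0
  exact hne (tf_zero_of_finite A hA g h0 hg)

theorem not_weak_of_bad {p : ℕ} (hp : p.Prime) {R : Type} [CommRing R] [IsDomain R] [CharP R p]
    {G : Type} [Group G] (h : Bad R G) : ¬ WeakBass p R G := by
  intro hw
  obtain ⟨n, A, hA, g, hg, hne⟩ := h
  have hpR : ¬ IsUnit (p : R) := by
    rw [CharP.cast_eq_zero R p]
    exact not_isUnit_zero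
  apply hne
  rw [← hs_eq]
  apply hw n A hA g hg
  by_contra hcon
  push Not at hcon
  exact hne (tf_zero_of_prime hp hpR A hA g hcon)

theorem weak_of_bass {p : ℕ} {R : Type} [CommRing R] [IsDomain R] {G : Type} [Group G]
    (h : Bass R G) : WeakBass p R G := by
  intro n A hA g hg _
  apply h n A hA g
  rw [hg, Nat.cast_zero]
  exact not_isUnit_zero

/-- change of groups along a homomorphism which reflects conjugacy -/
theorem bad_of_hom {R : Type} [CommRing R] {G H : Type} [Group G] [Group H] (f : G →* H)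
    (hf : Function.Injective f) (hc : ∀ x y : G, IsConj (f x) (f y) → IsConj x y) (h : Bad R G) :
    Bad R H := by
  obtain ⟨n, A, hA, g, hg, hne⟩ := h
  refine ⟨n, A.map (gr R f), by rw [← Matrix.map_mul, hA], f g, ?_, ?_⟩
  · rw [orderOf_injective f hf, hg]
  · have h1 : tf (ind R (f g)) (A.map (gr R f)) = tf (ind R g) A := by
      rw [tf_apply, tf_apply]
      apply Finset.sum_congr rfl
      intro i _
      rw [Matrix.map_apply]
      have h2 : ell (ind R (f g)) (gr R f (A i i)) = ell (fun x => ind R (f g) (f x)) (A i i) :=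
        ell_mapDomain f _ _
      rw [h2]
      congr 2
      funext x
      unfold ind
      by_cases h3 : IsConj x g
      · rw [if_pos h3, if_pos (MonoidHom.map_isConj f h3)]
      · rw [if_neg h3, if_neg (fun h4 => h3 (hc x g h4))]
    rwa [h1]

/-- descent to the largest quotients of finitely presented groups in the class -/
theorem bad_LQ {C : ∀ (G : Type) [Group G], Prop} {R : Type} [CommRing R] {G : Type} [Group G]
    (hG : C G) (h : Bad R G) : ∃ (r : ℕ) (S : Finset (FreeGroup (Fin r))), Bad R (LQ C r S) := by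
  obtain ⟨n, A, hA, g, hg, hne⟩ := h
  obtain ⟨r, S, φ, E₀, h1, h2⟩ := idem_liftC' hG A hA
  refine ⟨r, S, n, E₀, h1, ?_⟩
  by_contra hcon
  push Not at hcon
  apply hne
  rw [← h2]
  have h3 : tf (ind R g) (E₀.map (gr R φ)) = ell (fun x => ind R g (φ x)) (∑ i, E₀ i i) := by
    rw [tf_apply, map_sum]
    apply Finset.sum_congr rfl
    intro i _
    rw [Matrix.map_apply]
    exact ell_mapDomain φ _ _
  rw [h3]
  apply ell_class
  · intro a b hab
    have h4 := MonoidHom.map_isConj φ hab
    unfold ind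
    by_cases h5 : IsConj (φ a) g
    · rw [if_pos h5, if_pos (h4.symm.trans h5)]
    · rw [if_neg h5, if_neg (fun h6 => h5 (h4.trans h6))]
  · intro x hx
    have h4 : IsConj (φ x) g := by
      by_contra h5
      exact hx (if_neg h5)
    have h5 : orderOf x = 0 := by
      by_contra h6
      obtain ⟨k, hk, hk'⟩ := isOfFinOrder_iff_pow_eq_one.1 (orderOf_pos_iff.1 (Nat.pos_of_ne_zero h6))
      obtain ⟨c, hc⟩ := isConj_iff.1 h4
      have h7 : g ^ k = 1 := by
        rw [← hc, conj_pow, ← map_pow, hk', map_one, mul_one, mul_inv_cancel]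
      have h8 := orderOf_pos_iff.2 (isOfFinOrder_iff_pow_eq_one.2 ⟨k, hk, h7⟩)
      omega
    have h6 := hcon x h5
    rw [tf_apply, ← map_sum] at h6
    exact h6

/-- from the domain to a finite field, in prime characteristic -/
theorem bad_finite {p : ℕ} (hp : p.Prime) {R : Type} [CommRing R] [IsDomain R] [CharP R p]
    {G : Type} [Group G] (h : Bad R G) :
    ∃ (F : Type) (_ : Field F) (_ : Finite F) (_ : CharP F p), Bad F G := by
  classical
  obtain ⟨n, A, hA, g, hg, hne⟩ := h
  let S : Finset R := Finset.univ.biUnion fun q : Fin n × Fin n =>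
    (A q.1 q.2).coeff.support.image (A q.1 q.2).coeff
  let R0 := Algebra.adjoin ℤ (S : Set R)
  let ι : R0 →+* R := R0.val.toRingHom
  have hι : Function.Injective ι := Subtype.val_injective
  obtain ⟨A0, hA0, hA0A⟩ := exists_lift ι hι A hA (by
    intro i j h
    by_cases hh : (A i j).coeff h = 0
    · exact ⟨0, by rw [map_zero, hh]⟩
    · exact ⟨⟨(A i j).coeff h, Algebra.subset_adjoin (Finset.mem_coe.2 (Finset.mem_biUnion.2
        ⟨(i, j), Finset.mem_univ _, Finset.mem_image_of_mem _ (Finsupp.mem_support_iff.2 hh)⟩))⟩,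
        rfl⟩)
  have hft : Algebra.FiniteType ℤ R0 := by
    rw [← Subalgebra.fg_iff_finiteType]
    exact ⟨S, rfl⟩
  have hne0 : tf (ind R0 g) A0 ≠ 0 := by
    intro h0
    apply hne
    rw [← hA0A, tf_ch, h0, map_zero]
  have hJ : IsJacobsonRing R0 := isJacobsonRing_of_finiteType (A := ℤ)
  -- a maximal ideal which does not contain the rank
  obtain ⟨m, hm, hmne⟩ : ∃ m : Ideal R0, m.IsMaximal ∧ tf (ind R0 g) A0 ∉ m := by
    by_contra hcon
    push Not at hcon
    apply hne0
    have h1 : (⊥ : Ideal R0).jacobson = ⊥ := by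
      exact isJacobsonRing_iff.1 hJ ⊥ (Ideal.isPrime_bot.isRadical)
    have h3 : tf (ind R0 g) A0 ∈ (⊥ : Ideal R0).jacobson := by
      rw [Ideal.jacobson, Ideal.mem_sInf]
      intro I hI
      exact hcon I hI.2
    rw [h1] at h3
    exact h3
  obtain ⟨q, hq, hqm, hfin⟩ := Pool.Agent.H23R2.residue_finite R0 m
  have hchar0 : CharP R0 p := by
    exact (RingHom.charP_iff ι hι p).2 inferInstance
  let _ : Field (R0 ⧸ m) := Ideal.Quotient.field m
  have hcharp : CharP (R0 ⧸ m) p := by
    have h1 : ((p : ℕ) : R0 ⧸ m) = 0 := by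
      rw [← map_natCast (Ideal.Quotient.mk m), CharP.cast_eq_zero R0 p, map_zero]
    have h2 := ringChar.dvd h1
    rcases (Nat.dvd_prime hp).1 h2 with h3 | h3
    · exfalso
      have h4 : ((1 : ℕ) : R0 ⧸ m) = 0 := by
        rw [← h3]
        exact ringChar.Nat.cast_ringChar
      rw [Nat.cast_one] at h4
      exact one_ne_zero h4
    · rw [← h3]
      infer_instance
  refine ⟨R0 ⧸ m, inferInstance, hfin, hcharp, n, A0.map (ch (Ideal.Quotient.mk m) G),
    by rw [← Matrix.map_mul, hA0], g, hg, ?_⟩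
  rw [tf_ch]
  intro h0
  exact hmne (Ideal.Quotient.eq_zero_iff_mem.1 h0)

end Pool.Agent.U181.TG
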