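import Mathlib

/-! Classes of groups closed under subgroups and direct products; the largest quotients of finitely
presented groups in such a class, and the test group. -/

set_option autoImplicit false

namespace Pool.Agent.U181.TG

/-- the class of groups is closed under subgroups (up to isomorphism) and under arbitrary direct
products -/
structure ClosedSP (C : ∀ (G : Type) [Group G], Prop) : Prop where
  /-- a group which embeds in a group of the class is in the class -/
  sub : ∀ (G H : Type) [Group G] [Group H] (f : G →* H), Function.Injective f → C H → C G
  /-- direct products of groups in the class are in the class -/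
  prod : ∀ (I : Type) (G : I → Type) [∀ i, Group (G i)], (∀ i, C (G i)) → C (∀ i, G i)

/-- the intersection of the kernels of all homomorphisms from `F` to groups in the class `C` which kill
the set `S` -/
def quoKer (C : ∀ (G : Type) [Group G], Prop) {F : Type} [Group F] (S : Set F) : Subgroup F :=
  sInf {N : Subgroup F | S ⊆ N ∧ ∃ (G : Type) (_ : Group G) (f : F →* G), C G ∧ f.ker = N}

instance quoKer_normal (C : ∀ (G : Type) [Group G], Prop) {F : Type} [Group F] (S : Set F) :
    (quoKer C S).Normal := by
  refine ⟨fun x hx g => ?_⟩
  unfold quoKer at hx ⊢
  rw [Subgroup.mem_sInf] at hx ⊢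
  rintro N ⟨hN, G, _, f, hG, rfl⟩
  exact (MonoidHom.normal_ker f).conj_mem x (hx _ ⟨hN, G, inferInstance, f, hG, rfl⟩) g

/-- the largest quotient in the class `C` of the finitely presented group `⟨x_1, ..., x_r | S⟩` -/
abbrev LQ (C : ∀ (G : Type) [Group G], Prop) (r : ℕ) (S : Finset (FreeGroup (Fin r))) : Type :=
  FreeGroup (Fin r) ⧸ quoKer C (S : Set (FreeGroup (Fin r)))

/-- the restricted direct product of the largest quotients in the class `C` of all finitely presented
groups -/
def testSub (C : ∀ (G : Type) [Group G], Prop) :
    Subgroup (∀ i : (Σ r : ℕ, Finset (FreeGroup (Fin r))), LQ C i.1 i.2) where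
  carrier := {f | {i | f i ≠ 1}.Finite}
  one_mem' := by simp
  mul_mem' := by
    intro a b ha hb
    refine (ha.union hb).subset ?_
    intro i hi
    by_contra h
    simp only [Set.mem_union, Set.mem_ofPred_eq, not_or, not_not] at h
    apply hi
    simp [h.1, h.2]
  inv_mem' := by
    intro a ha
    refine Set.Finite.subset ha ?_
    intro i hi h
    apply hi
    simp [h]

/-- the test group of the class `C` -/
abbrev Test (C : ∀ (G : Type) [Group G], Prop) : Type := testSub C

end Pool.Agent.U181.TG
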