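import Pool.Agent.U181.TG.Base

/-! Definitions: triviality in the Whitehead group, derivations over a free group ring, limits of
groups without small torsion. -/

set_option autoImplicit false

namespace Pool.Agent.U181.TG

open Matrix

/-- the group has no element of finite order except the identity -/
def TorsionFree (Γ : Type) [Group Γ] : Prop :=
  ∀ g : Γ, ∀ k : ℕ, 0 < k → g ^ k = 1 → g = 1

/-- the group has no element of order `2, ..., N` -/
def NoSmallTorsion (N : ℕ) (G : Type) [Group G] : Prop :=
  ∀ g : G, ∀ k : ℕ, 0 < k → k ≤ N → g ^ k = 1 → g = 1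

/-- square matrices over `ℤΓ` of size `n + (m + 1)` -/
abbrev Mat (n m : ℕ) (Γ : Type) [Group Γ] : Type :=
  Matrix (Fin n ⊕ Fin (m + 1)) (Fin n ⊕ Fin (m + 1)) (MonoidAlgebra ℤ Γ)

/-- the matrix `A`, stabilised by an identity block of size `m + 1` -/
noncomputable def stab {Γ : Type} [Group Γ] {n : ℕ} (m : ℕ) (A : Matrix (Fin n) (Fin n) (MonoidAlgebra ℤ Γ)) :
    Mat n m Γ :=
  Matrix.fromBlocks A 0 0 1

/-- the diagonal matrix with `ε g` on one diagonal entry (the first one of the additional ones) and `1` on
the others -/
noncomputable def unitDiag {Γ : Type} [Group Γ] (n m : ℕ) (ε : ℤˣ) (g : Γ) : Mat n m Γ :=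
  Matrix.diagonal fun i => if i = Sum.inr 0 then MonoidAlgebra.single g (ε : ℤ) else 1

/-- the square matrix `A` over `ℤΓ`, stabilised by an identity block, is `± g` on one diagonal entry
times a product of commutators of invertible matrices (the form of the frozen statement) -/
def ZeroInWh {Γ : Type} [Group Γ] {n : ℕ} (A : Matrix (Fin n) (Fin n) (MonoidAlgebra ℤ Γ)) : Prop :=
  ∃ (m : ℕ) (g : Γ) (ε : ℤˣ) (C : (Mat n m Γ)ˣ),
    C ∈ commutator (Mat n m Γ)ˣ ∧ stab m A = unitDiag n m ε g * C.val

/-- the Whitehead group of `Γ` is trivial -/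
def WhZero (Γ : Type) [Group Γ] : Prop :=
  ∀ (n : ℕ) (A : (Matrix (Fin n) (Fin n) (MonoidAlgebra ℤ Γ))ˣ), ZeroInWh A.val

/-- four square matrices -/
structure Quadruple (ι R : Type) where
  /-- the first matrix -/
  X : Matrix ι ι R
  /-- to be the inverse of the first matrix -/
  X' : Matrix ι ι R
  /-- the second matrix -/
  Y : Matrix ι ι R
  /-- to be the inverse of the second matrix -/
  Y' : Matrix ι ι R

/-- A formal derivation for `n × n` matrices over the group ring of `F`: a size `m`, an element `g`, a
sign `ε` and a finite list of quadruples `(X, X', Y, Y')` of matrices over the group ring of `F` (which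
are meant to be invertible matrices `X`, `Y` and their inverses `X'`, `Y'`). -/
structure Derivation (F : Type) [Group F] (n : ℕ) where
  /-- the number of additional rows and columns, minus one -/
  m : ℕ
  /-- the group element -/
  g : F
  /-- the sign -/
  ε : ℤˣ
  /-- the matrices in the commutators -/
  L : List (Quadruple (Fin n ⊕ Fin (m + 1)) (MonoidAlgebra ℤ F))

/-- the two matrices are inverse to each other -/
def Inv {n m : ℕ} {Γ : Type} [Group Γ] (X Y : Mat n m Γ) : Prop :=
  X * Y = 1 ∧ Y * X = 1

/-- The image of the derivation `D` under `φ : F → G` proves that the image of the matrix `A` is zero in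
the Whitehead group of `G`: the images of `X` and `X'`, and of `Y` and `Y'`, are inverse to each other, and
the image of `A`, stabilised by an identity block, is `± φ(g)` on one diagonal entry times the product
of the commutators `X Y X' Y'`. -/
def Derivation.Works {F : Type} [Group F] {n : ℕ} (D : Derivation F n)
    (A : Matrix (Fin n) (Fin n) (MonoidAlgebra ℤ F)) {G : Type} [Group G] (φ : F →* G) : Prop :=
  (∀ q ∈ D.L, Inv (q.X.map (gr ℤ φ)) (q.X'.map (gr ℤ φ)) ∧
      Inv (q.Y.map (gr ℤ φ)) (q.Y'.map (gr ℤ φ))) ∧
    stab D.m (A.map (gr ℤ φ)) = unitDiag n D.m D.ε (φ D.g) *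
      (D.L.map fun q => (q.X * q.Y * q.X' * q.Y').map (gr ℤ φ)).prod

/-- `Γ` is a limit of groups in the class `C` without small torsion, in the sense of the space of marked
groups: for every homomorphism `φ` from a free group of finite rank to `Γ`, every finite set `W` of
words and every `N` there are a group `G` in `C` without elements of order `2, ..., N` and a
homomorphism `ψ` to `G` such that the same words of `W` are relations. -/
def IsLimit (C : ∀ (G : Type) [Group G], Prop) (Γ : Type) [Group Γ] : Prop :=
  ∀ (r : ℕ) (φ : FreeGroup (Fin r) →* Γ) (W : Finset (FreeGroup (Fin r))) (N : ℕ),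
    ∃ (G : Type) (_ : Group G), C G ∧ NoSmallTorsion N G ∧
      ∃ ψ : FreeGroup (Fin r) →* G, ∀ w ∈ W, ψ w = 1 ↔ φ w = 1

/-- The finitary form of the vanishing of Whitehead groups for the class `C`: for every pair of square
matrices `A`, `B` over the group ring of a free group of finite rank there are finitely many
derivations and a number `N` such that for each group `G` in `C` without elements of order `2, ..., N` and
each homomorphism to `G` under which the images of `A` and `B` are inverse to each other, the image of
one of the derivations proves that the image of `A` is zero in the Whitehead group of `G`. -/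
def Finitary (C : ∀ (G : Type) [Group G], Prop) : Prop :=
  ∀ (r n : ℕ) (A B : Matrix (Fin n) (Fin n) (MonoidAlgebra ℤ (FreeGroup (Fin r)))),
    ∃ (L : Finset (Derivation (FreeGroup (Fin r)) n)) (N : ℕ),
      ∀ (G : Type) [Group G], C G → NoSmallTorsion N G → ∀ φ : FreeGroup (Fin r) →* G,
        A.map (gr ℤ φ) * B.map (gr ℤ φ) = 1 → B.map (gr ℤ φ) * A.map (gr ℤ φ) = 1 →
          ∃ D ∈ L, D.Works A φ

/-- the smallest normal subgroup of `F` which contains `S` and has a torsion-free quotient -/
def tfClosure {F : Type} [Group F] (S : Set F) : Subgroup F :=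
  sInf {N : Subgroup F | N.Normal ∧ S ⊆ N ∧ ∀ w : F, ∀ k : ℕ, 0 < k → w ^ k ∈ N → w ∈ N}

instance tfClosure_normal {F : Type} [Group F] (S : Set F) : (tfClosure S).Normal := by
  refine ⟨fun x hx g => ?_⟩
  unfold tfClosure at hx ⊢
  rw [Subgroup.mem_sInf] at hx ⊢
  intro N hN
  exact hN.1.conj_mem x (hx N hN) g

/-- the largest torsion-free quotient of the finitely presented group `⟨x_1, ..., x_r | S⟩` -/
abbrev TFQuotient (r : ℕ) (S : Finset (FreeGroup (Fin r))) : Type :=
  FreeGroup (Fin r) ⧸ tfClosure (S : Set (FreeGroup (Fin r)))

/-- the restricted direct product of the largest torsion-free quotients of all finitely presented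
groups -/
def testSubgroup : Subgroup (∀ i : (Σ r : ℕ, Finset (FreeGroup (Fin r))), TFQuotient i.1 i.2) where
  carrier := {f | {i | f i ≠ 1}.Finite}
  one_mem' := by simp
  mul_mem' := by
    intro a b ha hb
    refine (ha.union hb).subset ?_
    intro i hi
    by_contra h
    simp only [Set.mem_union, Set.mem_ofPred_eq, not_or, not_not] at h
    apply hi
    simp [h.1, h.2]
  inv_mem' := by
    intro a ha
    refine Set.Finite.subset ha ?_
    intro i hi h
    apply hi
    simp [h]

/-- the test group -/
abbrev TestGroup : Type := testSubgroup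

end Pool.Agent.U181.TG
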