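import Pool.Agent.U181.TG.Defs

/-! Derivations: a derivation works or not depending on finitely many words; derivations which work
are the same as triviality in the Whitehead group. -/

set_option autoImplicit false

namespace Pool.Agent.U181.TG

open Matrix
open scoped commutatorElement

section

variable {G : Type} [Group G]

theorem exists_list_of_mem_commutator {U : Type} [Group U] {x : U} (hx : x ∈ commutator U) :
    ∃ l : List (U × U), x = (l.map fun p => ⁅p.1, p.2⁆).prod := by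
  rw [commutator_eq_closure] at hx
  induction hx using Subgroup.closure_induction with
  | mem y hy =>
    obtain ⟨a, b, rfl⟩ := hy
    exact ⟨[(a, b)], by simp⟩
  | one => exact ⟨[], by simp⟩
  | mul y z _ _ hy hz =>
    obtain ⟨l, rfl⟩ := hy
    obtain ⟨l', rfl⟩ := hz
    exact ⟨l ++ l', by simp⟩
  | inv y _ hy =>
    obtain ⟨l, rfl⟩ := hy
    refine ⟨(l.map fun p => (p.2, p.1)).reverse, ?_⟩
    rw [List.prod_inv_reverse, List.map_reverse, List.map_map, List.map_map]
    congr 2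
    apply List.map_congr_left
    intro p _
    simp [commutatorElement_inv]

end

section works

variable {F : Type} [Group F] {n : ℕ}

/-- the matrices which have to be killed -/
noncomputable def eqs (D : Derivation F n) (A : Matrix (Fin n) (Fin n) (MonoidAlgebra ℤ F)) :
    List (Mat n D.m F) :=
  (stab D.m A - unitDiag n D.m D.ε D.g * (D.L.map fun q => q.X * q.Y * q.X' * q.Y').prod) ::
  (D.L.map (fun q => q.X * q.X' - 1) ++ D.L.map (fun q => q.X' * q.X - 1) ++
    D.L.map (fun q => q.Y * q.Y' - 1) ++ D.L.map (fun q => q.Y' * q.Y - 1))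

theorem map_sub_one_iff {m : Type} [Fintype m] [DecidableEq m] {G : Type} [Group G] (φ : F →* G)
    (X Y : Matrix m m (MonoidAlgebra ℤ F)) :
    (X * Y - 1).map (gr ℤ φ) = 0 ↔ X.map (gr ℤ φ) * Y.map (gr ℤ φ) = 1 := by
  have h : (X * Y - 1).map (gr ℤ φ) = X.map (gr ℤ φ) * Y.map (gr ℤ φ) - 1 := by
    have := (gr ℤ φ).mapMatrix.map_sub (X * Y) 1
    rw [map_mul, map_one] at this
    exact this
  rw [h, sub_eq_zero]

theorem map_stab (m : ℕ) (A : Matrix (Fin n) (Fin n) (MonoidAlgebra ℤ F)) {G : Type}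
    [Group G] (φ : F →* G) : (stab m A).map (gr ℤ φ) = stab m (A.map (gr ℤ φ)) := by
  unfold stab
  have h5 : (1 : Matrix (Fin (m + 1)) (Fin (m + 1)) (MonoidAlgebra ℤ F)).map (gr ℤ φ) = 1 :=
      (gr ℤ φ).mapMatrix.map_one
  rw [Matrix.fromBlocks_map, h5, Matrix.map_zero _ (map_zero _), Matrix.map_zero _ (map_zero _)]

theorem map_unitDiag (m : ℕ) (ε : ℤˣ) (g : F) {G : Type} [Group G] (φ : F →* G) :
    (unitDiag n m ε g).map (gr ℤ φ) = unitDiag n m ε (φ g) := by
  unfold unitDiag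
  rw [Matrix.diagonal_map (map_zero _)]
  congr 1
  funext i
  by_cases h : i = Sum.inr (0 : Fin (m + 1))
  · rw [if_pos h, if_pos h]
    simp
  · rw [if_neg h, if_neg h]
    exact map_one _

theorem map_key (D : Derivation F n) (A : Matrix (Fin n) (Fin n) (MonoidAlgebra ℤ F)) {G : Type}
    [Group G] (φ : F →* G) :
    (stab D.m A - unitDiag n D.m D.ε D.g *
      (D.L.map fun q => q.X * q.Y * q.X' * q.Y').prod).map (gr ℤ φ) =
      stab D.m (A.map (gr ℤ φ)) - unitDiag n D.m D.ε (φ D.g) *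
        (D.L.map fun q => (q.X * q.Y * q.X' * q.Y').map (gr ℤ φ)).prod := by
  have h0 : ∀ P Q S : Mat n D.m F,
      (P - Q * S).map (gr ℤ φ) = P.map (gr ℤ φ) - Q.map (gr ℤ φ) * (gr ℤ φ).mapMatrix S := by
    intro P Q S
    have h1 := (gr ℤ φ).mapMatrix.map_sub P (Q * S)
    rw [map_mul] at h1
    exact h1
  have h4 : (gr ℤ φ).mapMatrix (D.L.map fun q => q.X * q.Y * q.X' * q.Y').prod =
      (D.L.map fun q => (q.X * q.Y * q.X' * q.Y').map (gr ℤ φ)).prod := by
    rw [map_list_prod, List.map_map]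
    rfl
  rw [h0, map_stab, map_unitDiag, h4]

theorem works_iff (D : Derivation F n) (A : Matrix (Fin n) (Fin n) (MonoidAlgebra ℤ F)) {G : Type}
    [Group G] (φ : F →* G) : D.Works A φ ↔ ∀ M ∈ eqs D A, M.map (gr ℤ φ) = 0 := by
  unfold eqs
  rw [List.forall_mem_cons, map_key, sub_eq_zero, List.forall_mem_append, List.forall_mem_append,
    List.forall_mem_append]
  simp only [List.forall_mem_map, map_sub_one_iff]
  unfold Derivation.Works Inv
  constructor
  · rintro ⟨h1, h2⟩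
    exact ⟨h2, ⟨⟨fun q hq => (h1 q hq).1.1, fun q hq => (h1 q hq).1.2⟩,
      fun q hq => (h1 q hq).2.1⟩, fun q hq => (h1 q hq).2.2⟩
  · rintro ⟨h2, ⟨⟨h3, h4⟩, h5⟩, h6⟩
    exact ⟨fun q hq => ⟨⟨h3 q hq, h4 q hq⟩, ⟨h5 q hq, h6 q hq⟩⟩, h2⟩

theorem exists_words {m : Type} [Fintype m]
    (l : List (Matrix m m (MonoidAlgebra ℤ F))) : ∃ W : Finset F, ∀ M ∈ l, WM M ⊆ W := by
  classical
  induction l with
  | nil => exact ⟨∅, by simp⟩
  | cons a l ih =>
    obtain ⟨W, hW⟩ := ih
    refine ⟨WM a ∪ W, ?_⟩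
    intro M hM
    rcases List.mem_cons.1 hM with rfl | h
    · exact Finset.subset_union_left
    · exact (hW M h).trans Finset.subset_union_right

theorem works_words (D : Derivation F n) (A : Matrix (Fin n) (Fin n) (MonoidAlgebra ℤ F)) :
    ∃ W : Finset F, ∀ (G H : Type) [Group G] [Group H] (φ : F →* G) (ψ : F →* H),
      (∀ w ∈ W, φ w = 1 ↔ ψ w = 1) → (D.Works A φ ↔ D.Works A ψ) := by
  obtain ⟨W, hW⟩ := exists_words (eqs D A)
  refine ⟨W, ?_⟩
  intro G H _ _ φ ψ h
  rw [works_iff, works_iff]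
  constructor
  · intro h1 M hM
    exact (killM_iff M φ ψ fun w hw => h w (hW M hM hw)).1 (h1 M hM)
  · intro h1 M hM
    exact (killM_iff M φ ψ fun w hw => h w (hW M hM hw)).2 (h1 M hM)

theorem map_four {m : Type} [Fintype m] [DecidableEq m] {G : Type} [Group G] (φ : F →* G)
    (X Y Z T : Matrix m m (MonoidAlgebra ℤ F)) :
    (X * Y * Z * T).map (gr ℤ φ) = X.map (gr ℤ φ) * Y.map (gr ℤ φ) * Z.map (gr ℤ φ) *
      T.map (gr ℤ φ) := by
  have h1 : (gr ℤ φ).mapMatrix (X * Y * Z * T) = (gr ℤ φ).mapMatrix X * (gr ℤ φ).mapMatrix Y *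
      (gr ℤ φ).mapMatrix Z * (gr ℤ φ).mapMatrix T := by
    simp only [map_mul]
  exact h1

/-- a derivation which works proves triviality -/
theorem zero_of_works (D : Derivation F n) (A : Matrix (Fin n) (Fin n) (MonoidAlgebra ℤ F))
    {G : Type} [Group G] (φ : F →* G) (h : D.Works A φ) : ZeroInWh (A.map (gr ℤ φ)) := by
  obtain ⟨h1, h2⟩ := h
  -- the product of commutators as a unit
  have key : ∀ l : List (Quadruple (Fin n ⊕ Fin (D.m + 1)) (MonoidAlgebra ℤ F)),
      (∀ q ∈ l, Inv (q.X.map (gr ℤ φ)) (q.X'.map (gr ℤ φ)) ∧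
        Inv (q.Y.map (gr ℤ φ)) (q.Y'.map (gr ℤ φ))) →
      ∃ C : (Mat n D.m G)ˣ, C ∈ commutator (Mat n D.m G)ˣ ∧
        C.val = (l.map fun q => (q.X * q.Y * q.X' * q.Y').map (gr ℤ φ)).prod := by
    intro l
    induction l with
    | nil => exact fun _ => ⟨1, one_mem _, by simp⟩
    | cons q l ih =>
      intro hl
      obtain ⟨C, hC, hC'⟩ := ih fun q hq => hl q (List.mem_cons_of_mem _ hq)
      obtain ⟨⟨a1, a2⟩, ⟨a3, a4⟩⟩ := hl q List.mem_cons_self
      let X : (Mat n D.m G)ˣ := ⟨_, _, a1, a2⟩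
      let Y : (Mat n D.m G)ˣ := ⟨_, _, a3, a4⟩
      refine ⟨⁅X, Y⁆ * C, mul_mem ?_ hC, ?_⟩
      · rw [commutator_def]
        exact Subgroup.commutator_mem_commutator (Subgroup.mem_top X) (Subgroup.mem_top Y)
      · rw [List.map_cons, List.prod_cons, ← hC', commutatorElement_def, map_four]
        rfl
  obtain ⟨C, hC, hC'⟩ := key D.L h1
  refine ⟨D.m, φ D.g, D.ε, C, hC, ?_⟩
  rw [hC']
  exact h2

/-- triviality gives a derivation, if the homomorphism is onto -/
theorem works_of_zero (A : Matrix (Fin n) (Fin n) (MonoidAlgebra ℤ F)) {G : Type} [Group G]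
    (φ : F →* G) (hφ : Function.Surjective φ) (h : ZeroInWh (A.map (gr ℤ φ))) :
    ∃ D : Derivation F n, D.Works A φ := by
  obtain ⟨m, g, ε, C, hC, h⟩ := h
  obtain ⟨l, hl⟩ := exists_list_of_mem_commutator hC
  obtain ⟨g', hg'⟩ := hφ g
  choose c hc using fun M : Mat n m G => lift_surj (R := ℤ) φ hφ M
  refine ⟨⟨m, g', ε, l.map fun p => ⟨c p.1.val, c (p.1⁻¹).val, c p.2.val, c (p.2⁻¹).val⟩⟩, ?_, ?_⟩
  · intro q hq
    simp only [List.mem_map] at hq
    obtain ⟨p, _, rfl⟩ := hq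
    unfold Inv
    simp only [hc]
    exact ⟨⟨Units.mul_inv _, Units.inv_mul _⟩, ⟨Units.mul_inv _, Units.inv_mul _⟩⟩
  · simp only [List.map_map, hg']
    have h5 : ∀ l' : List ((Mat n m G)ˣ), (l'.prod).val = (l'.map fun u => u.val).prod :=
      fun l' => map_list_prod (Units.coeHom _) l'
    have h6 : ∀ p : (Mat n m G)ˣ × (Mat n m G)ˣ,
        (⁅p.1, p.2⁆).val = p.1.val * p.2.val * (p.1⁻¹).val * (p.2⁻¹).val := by
      intro p
      rw [commutatorElement_def, Units.val_mul, Units.val_mul, Units.val_mul]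
    have h7 : (l.map fun p => ⁅p.1, p.2⁆).map (fun u => u.val) =
        l.map fun p => p.1.val * p.2.val * (p.1⁻¹).val * (p.2⁻¹).val := by
      rw [List.map_map]
      exact List.map_congr_left fun p _ => h6 p
    rw [h, hl, h5, h7]
    refine congrArg (HMul.hMul _) (congrArg List.prod ?_)
    refine List.map_congr_left fun p _ => ?_
    simp only [Function.comp, map_four, hc]

end works

/-- functoriality -/
theorem zero_map {Γ Δ : Type} [Group Γ] [Group Δ] (f : Γ →* Δ) {n : ℕ}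
    {A : Matrix (Fin n) (Fin n) (MonoidAlgebra ℤ Γ)} (h : ZeroInWh A) :
    ZeroInWh (A.map (gr ℤ f)) := by
  have h0 : A = A.map (gr ℤ (MonoidHom.id Γ)) := by
    ext1 i j
    simp only [Matrix.map_apply, gr, MonoidAlgebra.mapDomainRingHom_id]
    rfl
  rw [h0] at h
  obtain ⟨D, hD⟩ := works_of_zero A (MonoidHom.id Γ) Function.surjective_id h
  rw [works_iff] at hD
  apply zero_of_works D A f
  rw [works_iff]
  intro M hM
  refine killM_of' M (MonoidHom.id Γ) f (fun w _ hw => ?_) (hD M hM)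
  have : w = 1 := hw
  rw [this, map_one]

end Pool.Agent.U181.TG
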