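import Pool.Agent.U181.TG.Induct

/-! Change of coefficients: idempotent matrices over `K[Γ]` are defined over a countable subfield. -/

set_option autoImplicit false

namespace Pool.Agent.U181.TG

open Matrix CategoryTheory Pool.Agent.Y75

section coeff

variable {A B : Type} [Ring A] [Ring B]

/-- change of coefficients -/
noncomputable def cf (ι : A →+* B) (G : Type) [Group G] : MonoidAlgebra A G →+* MonoidAlgebra B G :=
  MonoidAlgebra.mapRingHom G ι

theorem cf_coeff (ι : A →+* B) (G : Type) [Group G] (x : MonoidAlgebra A G) (g : G) :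
    (cf ι G x).coeff g = ι (x.coeff g) := by
  simp [cf]

theorem cf_injective (ι : A →+* B) (hι : Function.Injective ι) (G : Type) [Group G] :
    Function.Injective (cf ι G) := by
  intro x y h
  apply MonoidAlgebra.coeff_injective
  ext g
  apply hι
  rw [← cf_coeff, ← cf_coeff, h]

theorem cf_coeffs (ι : A →+* B) (G : Type) [Group G] :
    (cf ι G).comp (coeffs A G) = (coeffs B G).comp ι := by
  apply RingHom.ext
  intro x
  simp [cf, coeffs, MonoidAlgebra.singleOneRingHom]

/-- an element whose coefficients are in the image comes from the smaller ring -/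
theorem cf_lift (ι : A →+* B) (G : Type) [Group G] (x : MonoidAlgebra B G)
    (h : ∀ g ∈ x.coeff.support, ∃ a, ι a = x.coeff g) : ∃ y, cf ι G y = x := by
  classical
  choose! s hs using h
  refine ⟨∑ g ∈ x.coeff.support, MonoidAlgebra.single g (s g), ?_⟩
  rw [map_sum]
  have h1 : ∀ g ∈ x.coeff.support, cf ι G (MonoidAlgebra.single g (s g)) =
      MonoidAlgebra.single g (x.coeff g) := by
    intro g hg
    rw [← hs g hg]
    simp [cf]
  rw [Finset.sum_congr rfl h1]
  apply MonoidAlgebra.coeff_injective
  ext g
  simp only [MonoidAlgebra.coeff_sum, MonoidAlgebra.coeff_single, Finsupp.finsetSum_apply,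
    Finsupp.single_apply]
  by_cases hg : g ∈ x.coeff.support
  · rw [Finset.sum_eq_single g]
    · simp
    · intro k _ hk
      rw [if_neg hk]
    · intro h
      exact absurd hg h
  · rw [Finset.sum_eq_zero]
    · exact (Finsupp.notMem_support_iff.1 hg).symm
    · intro k hk
      rw [if_neg]
      rintro rfl
      exact hg hk

theorem range_of_sub (ι : A →+* B) (hι : Function.Injective ι) (G : Type) [Group G]
    (hA : Function.Surjective (canon A G)) {n : ℕ}
    (E : Matrix (Fin n) (Fin n) (MonoidAlgebra B G)) (hE : E * E = E)
    (h : ∀ i j, ∀ g ∈ (E i j).coeff.support, ∃ a, ι a = (E i j).coeff g) :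
    NK.cls ⟨n, E, hE⟩ ∈ (canon B G).range := by
  choose F hF using fun i j => cf_lift ι G (E i j) (h i j)
  let E' : Matrix (Fin n) (Fin n) (MonoidAlgebra A G) := Matrix.of F
  have h1 : E'.map (cf ι G) = E := by
    ext1 i j
    exact hF i j
  have h2 : E' * E' = E' := by
    have h3 : (E' * E').map (cf ι G) = E'.map (cf ι G) := by
      rw [Matrix.map_mul, h1, hE]
    exact Matrix.map_injective (cf_injective ι hι G) h3
  obtain ⟨y, hy⟩ := hA (NK.cls ⟨n, E', h2⟩)
  refine ⟨NK.K0.map ι y, ?_⟩
  have h4 : canon B G (NK.K0.map ι y) = NK.K0.map (cf ι G) (canon A G y) := by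
    unfold canon
    have h5 := congrArg NK.K0.map (cf_coeffs ι G)
    rw [NK.K0.map_comp, NK.K0.map_comp] at h5
    exact (DFunLike.congr_fun h5 y).symm
  rw [h4, hy, NK.K0.map_cls]
  congr 1
  unfold NK.Idem.map
  congr 1

open Classical in
/-- the coefficients of a matrix -/
noncomputable def coefSet {G : Type} [Group G] {n : ℕ}
    (E : Matrix (Fin n) (Fin n) (MonoidAlgebra B G)) : Finset B :=
  Finset.univ.biUnion fun i => Finset.univ.biUnion fun j =>
    (E i j).coeff.support.image (E i j).coeff

theorem mem_coefSet {G : Type} [Group G] {n : ℕ}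
    (E : Matrix (Fin n) (Fin n) (MonoidAlgebra B G)) (i j : Fin n) (g : G)
    (hg : g ∈ (E i j).coeff.support) : (E i j).coeff g ∈ coefSet E := by
  classical
  unfold coefSet
  exact Finset.mem_biUnion.2 ⟨i, Finset.mem_univ _, Finset.mem_biUnion.2 ⟨j, Finset.mem_univ _,
    Finset.mem_image_of_mem _ hg⟩⟩

end coeff

theorem countable_closure {K : Type} [DivisionRing K] (s : Finset K) :
    Countable (Subfield.closure (s : Set K)) := by
  rw [← Cardinal.mk_le_aleph0_iff]
  refine (Subfield.cardinalMk_closure_le_max (s : Set K)).trans ?_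
  rw [max_le_iff]
  exact ⟨Cardinal.mk_le_aleph0_iff.2 (Finset.countable_toSet s).to_subtype, le_rfl⟩

theorem division_of_countable (G : Type) [Group G]
    (h : ∀ (K : Type) [DivisionRing K], Countable K → Function.Surjective (canon K G))
    (K : Type) [DivisionRing K] : Function.Surjective (canon K G) := by
  rw [canon_surj_iff]
  intro n E hE
  refine range_of_sub (Subfield.closure (coefSet E : Set K)).subtype Subtype.val_injective G
    (h _ (countable_closure _)) E hE fun i j g hg => ?_
  exact ⟨⟨(E i j).coeff g, Subfield.subset_closure (mem_coefSet E i j g hg)⟩, rfl⟩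

theorem field_of_countable (G : Type) [Group G]
    (h : ∀ (K : Type) [Field K], Countable K → Function.Surjective (canon K G))
    (K : Type) [Field K] : Function.Surjective (canon K G) := by
  rw [canon_surj_iff]
  intro n E hE
  refine range_of_sub (Subfield.closure (coefSet E : Set K)).subtype Subtype.val_injective G
    (h _ (countable_closure _)) E hE fun i j g hg => ?_
  exact ⟨⟨(E i j).coeff g, Subfield.subset_closure (mem_coefSet E i j g hg)⟩, rfl⟩

/-- the canonical map `K₀(R) → K₀(R[Γ])` is bijective for all groups in the class `C` -/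
def BijClass (C : ∀ (G : Type) [Group G], Prop) (R : Type) [Ring R] : Prop :=
  ∀ (Γ : Type) [Group Γ], C Γ → Function.Bijective (canon R Γ)

/-- the canonical map is bijective for the largest quotients in `C` of the finitely presented groups -/
def BijLQ (C : ∀ (G : Type) [Group G], Prop) (R : Type) [Ring R] : Prop :=
  ∀ (r : ℕ) (S : Finset (FreeGroup (Fin r))), Function.Bijective (canon R (LQ C r S))

/-- the canonical map is bijective for the test group of the class `C` -/
def BijTest (C : ∀ (G : Type) [Group G], Prop) (R : Type) [Ring R] : Prop :=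
  Function.Bijective (canon R (Test C))

end Pool.Agent.U181.TG
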