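import Pool.Agent.U181.TG.Cls

/-! The canonical map `K₀(R) → K₀(R[G])` and test groups. -/

set_option autoImplicit false

namespace Pool.Agent.U181.TG

open Matrix CategoryTheory Pool.Agent.Y75

/-- the inclusion of the coefficients -/
noncomputable def coeffs (R : Type) [Ring R] (G : Type) [Group G] : R →+* MonoidAlgebra R G :=
  MonoidAlgebra.singleOneRingHom

/-- the canonical homomorphism `K₀(R) → K₀(R[G])` -/
noncomputable def canon (R : Type) [Ring R] (G : Type) [Group G] :
    NK.K0 R →+ NK.K0 (MonoidAlgebra R G) :=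
  NK.K0.map (coeffs R G)

variable (R : Type) [Ring R]

/-- the augmentation -/
noncomputable def augm (G : Type) [Group G] : MonoidAlgebra R G →+* R :=
  MonoidAlgebra.liftNCRingHom (RingHom.id R) (1 : G →* R) (fun _ _ => Commute.one_right _)

theorem augm_coeffs (G : Type) [Group G] : (augm R G).comp (coeffs R G) = RingHom.id R := by
  apply RingHom.ext
  intro x
  simp [augm, coeffs, MonoidAlgebra.singleOneRingHom]

theorem canon_injective (G : Type) [Group G] : Function.Injective (canon R G) := by
  have h : (NK.K0.map (augm R G)).comp (canon R G) = AddMonoidHom.id _ := by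
    unfold canon
    rw [← NK.K0.map_comp, augm_coeffs, NK.K0.map_id]
  intro x y hxy
  have h1 := congrArg (NK.K0.map (augm R G)) hxy
  have h2 : ∀ z, NK.K0.map (augm R G) (canon R G z) = z := fun z => DFunLike.congr_fun h z
  rwa [h2, h2] at h1

theorem gr_coeffs {G H : Type} [Group G] [Group H] (f : G →* H) :
    (gr R f).comp (coeffs R G) = coeffs R H := by
  apply RingHom.ext
  intro x
  simp [gr, coeffs, MonoidAlgebra.singleOneRingHom]

theorem canon_nat {G H : Type} [Group G] [Group H] (f : G →* H) (x : NK.K0 R) :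
    NK.K0.map (gr R f) (canon R G x) = canon R H x := by
  unfold canon
  rw [← gr_coeffs R f, NK.K0.map_comp]
  rfl

/-- it suffices to consider the classes of idempotent matrices -/
theorem canon_surj_iff (G : Type) [Group G] :
    Function.Surjective (canon R G) ↔
      ∀ (n : ℕ) (E : Matrix (Fin n) (Fin n) (MonoidAlgebra R G)) (hE : E * E = E),
        NK.cls ⟨n, E, hE⟩ ∈ (canon R G).range := by
  constructor
  · intro h n E hE
    exact h _
  · intro h x
    have h1 : (QuotientAddGroup.mk' (canon R G).range) = 0 := by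
      apply NK.K0.hom_ext
      intro e
      exact (QuotientAddGroup.eq_zero_iff _).2 (h e.n e.e e.idem)
    have h2 : QuotientAddGroup.mk' (canon R G).range x = 0 := by rw [h1]; rfl
    exact (QuotientAddGroup.eq_zero_iff _).1 h2

variable {C : ∀ (G : Type) [Group G], Prop}

theorem canon_of_LQ (h : ∀ (r : ℕ) (S : Finset (FreeGroup (Fin r))),
    Function.Surjective (canon R (LQ C r S))) (Γ : Type) [Group Γ] (hΓ : C Γ) :
    Function.Surjective (canon R Γ) := by
  rw [canon_surj_iff]
  intro n E hE
  obtain ⟨r, S, φ, E₀, h1, h2⟩ := idem_liftC' hΓ E hE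
  obtain ⟨y, hy⟩ := (canon_surj_iff R _).1 (h r S) n E₀ h1
  refine ⟨y, ?_⟩
  rw [← canon_nat R φ, hy, NK.K0.map_cls]
  congr 1
  unfold NK.Idem.map
  congr 1

theorem canon_retract {G H : Type} [Group G] [Group H] (f : G →* H) (g : H →* G)
    (h : g.comp f = MonoidHom.id G) (hH : Function.Surjective (canon R H)) :
    Function.Surjective (canon R G) := by
  intro x
  obtain ⟨y, hy⟩ := hH (NK.K0.map (gr R f) x)
  refine ⟨y, ?_⟩
  rw [← canon_nat R g, hy]
  have h1 : (gr R g).comp (gr R f) = RingHom.id _ := by
    rw [gr, gr, ← MonoidAlgebra.mapDomainRingHom_comp, h, MonoidAlgebra.mapDomainRingHom_id]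
  have h2 := NK.K0.map_comp (gr R g) (gr R f)
  rw [h1, NK.K0.map_id] at h2
  exact (DFunLike.congr_fun h2 x).symm

theorem canon_tfae (hC : ClosedSP C) :
    List.TFAE
      [∀ (Γ : Type) [Group Γ], C Γ → Function.Bijective (canon R Γ),
        ∀ (r : ℕ) (S : Finset (FreeGroup (Fin r))), Function.Bijective (canon R (LQ C r S)),
        Function.Bijective (canon R (Test C))] := by
  tfae_have 1 → 3 := fun h => h _ (class_test hC)
  tfae_have 3 → 2 := fun h r S => by
    obtain ⟨f, g, hgf⟩ := test_retract (C := C) r S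
    exact ⟨canon_injective R _, canon_retract R f g hgf h.2⟩
  tfae_have 2 → 1 := fun h Γ _ hΓ =>
    ⟨canon_injective R _, canon_of_LQ R (fun r S => (h r S).2) Γ hΓ⟩
  tfae_finish

end Pool.Agent.U181.TG
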