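import Pool.Agent.U181.TG.Abs

/-! Stable freeness of finitely generated projective modules, in terms of idempotent matrices, and the
compactness principle for it. -/

set_option autoImplicit false

namespace Pool.Agent.U181.TG

open Matrix

section idem

variable {A : Type} [Ring A]

/-- finitely generated projective modules are stably free -/
def AllStablyFree (A : Type) [Ring A] : Prop :=
  ∀ (P : Type) [AddCommGroup P] [Module A P], Module.Finite A P → Module.Projective A P →
    ∃ n m : ℕ, Nonempty ((P × (Fin n → A)) ≃ₗ[A] (Fin m → A))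

/-- the idempotent matrix `E` defines a stably free module -/
def IdemFree {A : Type} [Ring A] {n : ℕ} (E : Matrix (Fin n) (Fin n) A) : Prop :=
  ∃ (k m : ℕ) (X : Matrix (Fin n ⊕ Fin k) (Fin m) A) (Y : Matrix (Fin m) (Fin n ⊕ Fin k) A),
    X * Y = Matrix.fromBlocks E 0 0 1 ∧ Y * X = 1

theorem blk {n k : ℕ} (E : Matrix (Fin n) (Fin n) A) :
    (LinearEquiv.sumArrowLequivProdArrow (Fin n) (Fin k) A A).symm.toLinearMap ∘ₗ
      (LinearMap.prodMap E.toLinearMapRight' LinearMap.id) ∘ₗ
      (LinearEquiv.sumArrowLequivProdArrow (Fin n) (Fin k) A A).toLinearMap =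
      (Matrix.fromBlocks E 0 0 (1 : Matrix (Fin k) (Fin k) A)).toLinearMapRight' := by
  apply LinearMap.ext
  intro v
  rw [Matrix.toLinearMapRight'_apply, Matrix.vecMul_fromBlocks]
  funext i
  rcases i with i | i
  · simp [LinearEquiv.sumArrowLequivProdArrow]
    rfl
  · simp [LinearEquiv.sumArrowLequivProdArrow]

theorem allStablyFree_iff :
    AllStablyFree A ↔ ∀ (n : ℕ) (E : Matrix (Fin n) (Fin n) A), E * E = E → IdemFree E := by
  constructor
  · intro h n E hE
    let f : (Fin n → A) →ₗ[A] (Fin n → A) := E.toLinearMapRight'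
    have hff : f ∘ₗ f = f := by
      change E.toLinearMapRight' ∘ₗ E.toLinearMapRight' = E.toLinearMapRight'
      rw [← Matrix.toLinearMapRight'_mul, hE]
    let s : (Fin n → A) →ₗ[A] LinearMap.range f := f.rangeRestrict
    let i : LinearMap.range f →ₗ[A] (Fin n → A) := (LinearMap.range f).subtype
    have his : i ∘ₗ s = f := by
      apply LinearMap.ext
      intro v
      rfl
    have hsi : s ∘ₗ i = LinearMap.id := by
      apply LinearMap.ext
      rintro ⟨_, v, rfl⟩
      apply Subtype.ext
      exact congrArg (fun g : (Fin n → A) →ₗ[A] (Fin n → A) => g v) hff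
    have h1 : Module.Finite A (LinearMap.range f) := Module.Finite.range f
    have h2 : Module.Projective A (LinearMap.range f) := Module.Projective.of_split i s hsi
    obtain ⟨k, m, ⟨e⟩⟩ := h _ h1 h2
    let T := LinearEquiv.sumArrowLequivProdArrow (Fin n) (Fin k) A A
    let a : (Fin n ⊕ Fin k → A) →ₗ[A] (Fin m → A) :=
      e.toLinearMap ∘ₗ (LinearMap.prodMap s LinearMap.id) ∘ₗ T.toLinearMap
    let b : (Fin m → A) →ₗ[A] (Fin n ⊕ Fin k → A) :=
      T.symm.toLinearMap ∘ₗ (LinearMap.prodMap i LinearMap.id) ∘ₗ e.symm.toLinearMap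
    have hab : a ∘ₗ b = LinearMap.id := by
      apply LinearMap.ext
      intro v
      have h3 : ∀ w, s (i w) = w := fun w => congrArg (fun g => g w) hsi
      simp [a, b, h3]
    have hba : b ∘ₗ a = (Matrix.fromBlocks E 0 0 (1 : Matrix (Fin k) (Fin k) A)).toLinearMapRight' := by
      rw [← blk]
      apply LinearMap.ext
      intro v
      simp only [a, b, LinearMap.comp_apply, LinearEquiv.coe_coe, LinearEquiv.symm_apply_apply]
      rfl
    refine ⟨k, m, a.toMatrixRight', b.toMatrixRight', ?_, ?_⟩
    · rw [← LinearMap.toMatrixRight'_comp, hba]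
      exact LinearEquiv.apply_symm_apply _ _
    · rw [← LinearMap.toMatrixRight'_comp, hab]
      exact LinearMap.toMatrixRight'_id
  · intro h P _ _ h1 h2
    obtain ⟨n, p, s, _, _, hps⟩ := Module.Finite.exists_comp_eq_id_of_projective A P
    have hps' : ∀ x, p (s x) = x := fun x => congrArg (fun g => g x) hps
    let E : Matrix (Fin n) (Fin n) A := (s ∘ₗ p).toMatrixRight'
    have hE' : E.toLinearMapRight' = s ∘ₗ p := LinearEquiv.symm_apply_apply _ _
    have hE : E * E = E := by
      change (s ∘ₗ p).toMatrixRight' * (s ∘ₗ p).toMatrixRight' = (s ∘ₗ p).toMatrixRight'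
      rw [← LinearMap.toMatrixRight'_comp]
      congr 1
      apply LinearMap.ext
      intro v
      simp [hps']
    obtain ⟨k, m, X, Y, hXY, hYX⟩ := h n E hE
    let T := LinearEquiv.sumArrowLequivProdArrow (Fin n) (Fin k) A A
    have hb := blk (k := k) E
    rw [← hXY, Matrix.toLinearMapRight'_mul, hE'] at hb
    have hb' : ∀ v, Y.toLinearMapRight' (X.toLinearMapRight' v) =
        T.symm (LinearMap.prodMap (s ∘ₗ p) LinearMap.id (T v)) := fun v =>
      (congrArg (fun g => g v) hb).symm
    have hY : ∀ v, X.toLinearMapRight' (Y.toLinearMapRight' v) = v := by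
      intro v
      rw [← Matrix.toLinearMapRight'_mul_apply, hYX]
      simp
    refine ⟨k, m, ⟨LinearEquiv.ofLinearMap
      (X.toLinearMapRight' ∘ₗ T.symm.toLinearMap ∘ₗ LinearMap.prodMap s LinearMap.id)
      (LinearMap.prodMap p LinearMap.id ∘ₗ T.toLinearMap ∘ₗ Y.toLinearMapRight') ?_ ?_⟩⟩
    · apply LinearMap.ext
      intro v
      have h3 : T.symm (LinearMap.prodMap (s ∘ₗ p) LinearMap.id (T (Y.toLinearMapRight' v))) =
          Y.toLinearMapRight' v := by
        rw [← hb', hY]
      have h4 : LinearMap.prodMap s LinearMap.id (LinearMap.prodMap p LinearMap.id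
          (T (Y.toLinearMapRight' v))) =
          LinearMap.prodMap (s ∘ₗ p) LinearMap.id (T (Y.toLinearMapRight' v)) := rfl
      change X.toLinearMapRight' (T.symm (LinearMap.prodMap s LinearMap.id
        (LinearMap.prodMap p LinearMap.id (T (Y.toLinearMapRight' v))))) = v
      rw [h4, h3, hY]
    · apply LinearMap.ext
      rintro ⟨x, w⟩
      change LinearMap.prodMap p LinearMap.id (T (Y.toLinearMapRight' (X.toLinearMapRight'
        (T.symm (LinearMap.prodMap s LinearMap.id (x, w)))))) = (x, w)
      rw [hb', LinearEquiv.apply_symm_apply, LinearEquiv.apply_symm_apply]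
      simp [LinearMap.prodMap_apply, hps']

end idem

section k0

variable {R : Type} [Ring R]

/-- A formal derivation of stable freeness for an `n × n` matrix over the group ring of `F`. -/
structure Splitting (R : Type) [Ring R] (F : Type) [Group F] (n : ℕ) where
  /-- the rank of the free module which is added -/
  k : ℕ
  /-- the rank of the sum -/
  m : ℕ
  /-- the matrix of the isomorphism -/
  X : Matrix (Fin n ⊕ Fin k) (Fin m) (MonoidAlgebra R F)
  /-- the matrix of its inverse -/
  Y : Matrix (Fin m) (Fin n ⊕ Fin k) (MonoidAlgebra R F)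

/-- The images of the matrices `X`, `Y` under `φ` satisfy `X Y = diag(E, 1)`, `Y X = 1`, for the image of
`E`; so they prove that the image of `E`, if it is idempotent, defines a stably free module. -/
def Splitting.Works {F : Type} [Group F] {n : ℕ} (D : Splitting R F n)
    (E : Matrix (Fin n) (Fin n) (MonoidAlgebra R F)) {G : Type} [Group G] (φ : F →* G) : Prop :=
  D.X.map (gr R φ) * D.Y.map (gr R φ) = Matrix.fromBlocks (E.map (gr R φ)) 0 0 1 ∧
    D.Y.map (gr R φ) * D.X.map (gr R φ) = 1

/-- The finitary form of the stable freeness of the finitely generated projective modules over the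
group rings `R[G]`, `G` in the class `C`: for every square matrix `E` over the group ring of a free group
of finite rank there are finitely many splittings and a number `N` such that for each group `G` in `C`
without elements of order `2, ..., N` and each homomorphism to `G` under which the image of `E` is
idempotent, the image of one of the splittings proves that this idempotent defines a stably free
module. -/
def FinitarySplitting (R : Type) [Ring R] (C : ∀ (G : Type) [Group G], Prop) : Prop :=
  ∀ (r n : ℕ) (E : Matrix (Fin n) (Fin n) (MonoidAlgebra R (FreeGroup (Fin r)))),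
    ∃ (L : Finset (Splitting R (FreeGroup (Fin r)) n)) (N : ℕ),
      ∀ (G : Type) [Group G], C G → NoSmallTorsion N G → ∀ φ : FreeGroup (Fin r) →* G,
        E.map (gr R φ) * E.map (gr R φ) = E.map (gr R φ) → ∃ D ∈ L, D.Works E φ

section maps

variable {F : Type} [Group F] {n : ℕ}

theorem map_mul_gr {G : Type} [Group G] (φ : F →* G) {a b c : Type} [Fintype b]
    (X : Matrix a b (MonoidAlgebra R F)) (Y : Matrix b c (MonoidAlgebra R F)) :
    (X * Y).map (gr R φ) = X.map (gr R φ) * Y.map (gr R φ) :=
  Matrix.map_mul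

theorem map_sub_gr {G : Type} [Group G] (φ : F →* G) {a b : Type}
    (X Y : Matrix a b (MonoidAlgebra R F)) :
    (X - Y).map (gr R φ) = X.map (gr R φ) - Y.map (gr R φ) :=
  Matrix.map_sub _ (map_sub _) X Y

theorem map_one_gr {G : Type} [Group G] (φ : F →* G) {a : Type} [DecidableEq a] :
    (1 : Matrix a a (MonoidAlgebra R F)).map (gr R φ) = 1 :=
  Matrix.map_one _ (map_zero _) (map_one _)

theorem map_blocks_gr {G : Type} [Group G] (φ : F →* G) {k : ℕ}
    (E : Matrix (Fin n) (Fin n) (MonoidAlgebra R F)) :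
    (Matrix.fromBlocks E 0 0 (1 : Matrix (Fin k) (Fin k) (MonoidAlgebra R F))).map (gr R φ) =
      Matrix.fromBlocks (E.map (gr R φ)) 0 0 1 := by
  rw [Matrix.fromBlocks_map, map_one_gr, Matrix.map_zero _ (map_zero _),
    Matrix.map_zero _ (map_zero _)]

open Classical in
/-- the elements to be killed for a splitting -/
noncomputable def eqsK (E : Matrix (Fin n) (Fin n) (MonoidAlgebra R F)) (D : Splitting R F n) :
    Finset (MonoidAlgebra R F) :=
  ent (D.X * D.Y - Matrix.fromBlocks E 0 0 1) ∪ ent (D.Y * D.X - 1)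

theorem worksK_iff (D : Splitting R F n) (E : Matrix (Fin n) (Fin n) (MonoidAlgebra R F))
    {G : Type} [Group G] (φ : F →* G) : D.Works E φ ↔ Sat (eqsK E D) φ := by
  unfold eqsK Splitting.Works
  rw [sat_union, sat_ent, sat_ent, map_sub_gr, map_sub_gr, map_mul_gr, map_mul_gr, map_blocks_gr,
    map_one_gr, sub_eq_zero, sub_eq_zero]

/-- the elements to be killed for an idempotent -/
noncomputable def hypK (E : Matrix (Fin n) (Fin n) (MonoidAlgebra R F)) :
    Finset (MonoidAlgebra R F) :=
  ent (E * E - E)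

theorem hypK_iff (E : Matrix (Fin n) (Fin n) (MonoidAlgebra R F))
    {G : Type} [Group G] (φ : F →* G) :
    Sat (hypK E) φ ↔ E.map (gr R φ) * E.map (gr R φ) = E.map (gr R φ) := by
  unfold hypK
  rw [sat_ent, map_sub_gr, map_mul_gr, sub_eq_zero]

theorem idemFree_of_works (D : Splitting R F n) (E : Matrix (Fin n) (Fin n) (MonoidAlgebra R F))
    {G : Type} [Group G] (φ : F →* G) (h : D.Works E φ) : IdemFree (E.map (gr R φ)) :=
  ⟨D.k, D.m, _, _, h.1, h.2⟩

theorem works_of_idemFree (E : Matrix (Fin n) (Fin n) (MonoidAlgebra R F))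
    {G : Type} [Group G] (φ : F →* G) (hφ : Function.Surjective φ) (h : IdemFree (E.map (gr R φ))) :
    ∃ D : Splitting R F n, D.Works E φ := by
  obtain ⟨k, m, X, Y, h1, h2⟩ := h
  obtain ⟨X', hX⟩ := lift_surj (R := R) φ hφ X
  obtain ⟨Y', hY⟩ := lift_surj (R := R) φ hφ Y
  refine ⟨⟨k, m, X', Y'⟩, ?_, ?_⟩
  · change X'.map (gr R φ) * Y'.map (gr R φ) = _
    rw [hX, hY, h1]
  · change Y'.map (gr R φ) * X'.map (gr R φ) = _
    rw [hX, hY, h2]

end maps

theorem idemFree_map {Γ Δ : Type} [Group Γ] [Group Δ] (f : Γ →* Δ) {n : ℕ}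
    {E : Matrix (Fin n) (Fin n) (MonoidAlgebra R Γ)} (h : IdemFree E) :
    IdemFree (E.map (gr R f)) := by
  obtain ⟨k, m, X, Y, h1, h2⟩ := h
  refine ⟨k, m, X.map (gr R f), Y.map (gr R f), ?_, ?_⟩
  · rw [← map_mul_gr, h1, map_blocks_gr]
  · rw [← map_mul_gr, h2, map_one_gr]

/-- every matrix over a group ring comes from a free group of finite rank -/
theorem exists_free_liftR {Γ : Type} [Group Γ] {n : ℕ}
    (A : Matrix (Fin n) (Fin n) (MonoidAlgebra R Γ)) :
    ∃ (r : ℕ) (φ : FreeGroup (Fin r) →* Γ)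
      (A' : Matrix (Fin n) (Fin n) (MonoidAlgebra R (FreeGroup (Fin r)))),
      A'.map (gr R φ) = A := by
  classical
  let T : Finset Γ := Finset.univ.biUnion fun i => Finset.univ.biUnion fun j =>
    (A i j).coeff.support
  let e := T.equivFin
  let φ : FreeGroup (Fin T.card) →* Γ := FreeGroup.lift fun k => ((e.symm k : T) : Γ)
  have hT : ∀ g ∈ T, ∃ w, φ w = g := by
    intro g hg
    refine ⟨FreeGroup.of (e ⟨g, hg⟩), ?_⟩
    simp [φ]
  obtain ⟨A', hA'⟩ := lift_existsM (R := R) φ A fun i j g hg => hT g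
    (Finset.mem_biUnion.2 ⟨i, Finset.mem_univ _, Finset.mem_biUnion.2 ⟨j, Finset.mem_univ _, hg⟩⟩)
  exact ⟨_, φ, A', hA'⟩

theorem compactnessK (C : ∀ (G : Type) [Group G], Prop) :
    (∀ (Γ : Type) [Group Γ], IsLimit C Γ → AllStablyFree (MonoidAlgebra R Γ)) ↔
      FinitarySplitting R C := by
  constructor
  · intro h r n E
    obtain ⟨L, N, hL⟩ := abs_compact C (hypK E) (eqsK E) (fun Γ _ hΓ φ hφ hs => by
      have h1 := allStablyFree_iff.1 (h Γ hΓ) n (E.map (gr R φ)) ((hypK_iff E φ).1 hs)
      obtain ⟨D, hD⟩ := works_of_idemFree E φ hφ h1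
      exact ⟨D, (worksK_iff D E φ).1 hD⟩)
    refine ⟨L, N, fun G _ hG hN φ hE => ?_⟩
    obtain ⟨D, hD, h1⟩ := hL G hG hN φ ((hypK_iff E φ).2 hE)
    exact ⟨D, hD, (worksK_iff D E φ).2 h1⟩
  · intro h Γ _ hΓ
    rw [allStablyFree_iff]
    intro n E hE
    obtain ⟨r, φ, E', hE'⟩ := exists_free_liftR E
    obtain ⟨L, N, hL⟩ := h r n E'
    obtain ⟨D, hD⟩ := abs_lift C (hypK E') (eqsK E') ⟨L, N, fun G _ hG hN ψ hs => by
      obtain ⟨D, hD, h1⟩ := hL G hG hN ψ ((hypK_iff E' ψ).1 hs)
      exact ⟨D, hD, (worksK_iff D E' ψ).1 h1⟩⟩ Γ hΓ φ (by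
        rw [hypK_iff, hE', hE])
    have h1 := idemFree_of_works D E' φ ((worksK_iff D E' φ).2 hD)
    rwa [hE'] at h1

/-- the largest torsion-free quotients of finitely presented groups decide everything -/
theorem free_of_tfQuotients (h : ∀ (r : ℕ) (S : Finset (FreeGroup (Fin r))),
    AllStablyFree (MonoidAlgebra R (TFQuotient r S))) (Γ : Type) [Group Γ] (hΓ : TorsionFree Γ) :
    AllStablyFree (MonoidAlgebra R Γ) := by
  classical
  rw [allStablyFree_iff]
  intro n E hE
  obtain ⟨r, φ, E', hE'⟩ := exists_free_liftR E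
  let S : Finset (FreeGroup (Fin r)) := (WT (hypK E')).filter fun w => φ w = 1
  let q : FreeGroup (Fin r) →* TFQuotient r S := QuotientGroup.mk' _
  have hS : tfClosure (S : Set (FreeGroup (Fin r))) ≤ φ.ker :=
    tfClosure_le hΓ φ _ fun w hw => (Finset.mem_filter.1 (Finset.mem_coe.1 hw)).2
  let φ' : TFQuotient r S →* Γ := QuotientGroup.lift _ φ fun w hw => hS hw
  have hφ' : φ'.comp q = φ := by
    ext w
    rfl
  have h1 : Sat (hypK E') q := by
    refine sat_of (hypK E') φ q (fun w hw h1 => ?_) ?_
    · exact (QuotientGroup.eq_one_iff _).2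
        (subset_tfClosure _ (Finset.mem_coe.2 (Finset.mem_filter.2 ⟨hw, h1⟩)))
    · rw [hypK_iff, hE', hE]
  have h3 : IdemFree (E'.map (gr R q)) :=
    allStablyFree_iff.1 (h r S) n _ ((hypK_iff E' q).1 h1)
  have h4 := idemFree_map φ' h3
  rwa [map_map_gr, hφ', hE'] at h4

theorem free_of_retract {Γ Δ : Type} [Group Γ] [Group Δ] (f : Γ →* Δ) (g : Δ →* Γ)
    (h : g.comp f = MonoidHom.id Γ) (hΔ : AllStablyFree (MonoidAlgebra R Δ)) :
    AllStablyFree (MonoidAlgebra R Γ) := by
  rw [allStablyFree_iff] at hΔ ⊢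
  intro n E hE
  have h1 : IdemFree (E.map (gr R f)) := hΔ n _ (by rw [← map_mul_gr, hE])
  have h2 := idemFree_map g h1
  rw [map_map_gr, h] at h2
  have h0 : E.map (gr R (MonoidHom.id Γ)) = E := by
    ext1 i j
    simp only [Matrix.map_apply, gr, MonoidAlgebra.mapDomainRingHom_id]
    rfl
  rwa [h0] at h2

open Classical in
theorem testGroup_retract (r : ℕ) (S : Finset (FreeGroup (Fin r))) :
    ∃ (f : TFQuotient r S →* TestGroup) (g : TestGroup →* TFQuotient r S),
      g.comp f = MonoidHom.id _ := by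
  let fam : (Σ r : ℕ, Finset (FreeGroup (Fin r))) → Type := fun i => TFQuotient i.1 i.2
  let i : Σ r : ℕ, Finset (FreeGroup (Fin r)) := ⟨r, S⟩
  let e : TFQuotient r S →* (∀ i, fam i) := MonoidHom.mulSingle fam i
  have he : ∀ x j, j ≠ i → e x j = 1 := fun x j hj => Pi.mulSingle_eq_of_ne (M := fam) hj x
  have he' : ∀ x, e x i = x := fun x => Pi.mulSingle_eq_same (M := fam) i x
  let f : TFQuotient r S →* TestGroup :=
    { toFun := fun x => ⟨e x, by
        change {j | e x j ≠ 1}.Finite
        refine (Set.finite_singleton i).subset ?_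
        intro j hj
        by_contra hne
        exact hj (he x j hne)⟩
      map_one' := by
        apply Subtype.ext
        exact map_one e
      map_mul' := fun x y => by
        apply Subtype.ext
        exact map_mul e x y }
  let g : TestGroup →* TFQuotient r S :=
    { toFun := fun x => x.val i
      map_one' := rfl
      map_mul' := fun x y => rfl }
  refine ⟨f, g, ?_⟩
  apply MonoidHom.ext
  intro x
  exact he' x

end k0

end Pool.Agent.U181.TG
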