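import Pool.Agent.U181.TG.Cls
import Pool.Agent.U181.TG.Fin

/-! Whitehead groups, stable freeness and negative `K`-groups together. -/

set_option autoImplicit false

namespace Pool.Agent.U181.TG

open Matrix CategoryTheory Pool.Agent.Y75

section free

variable (R : Type) [Ring R]

/-- the identity matrix as an idempotent matrix -/
def oneI (A : Type) [Ring A] (k : ℕ) : NK.Idem A := ⟨k, 1, one_mul 1⟩

theorem map_oneI {A B : Type} [Ring A] [Ring B] (f : A →+* B) (k : ℕ) :
    NK.Idem.map f (oneI A k) = oneI B k := by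
  unfold NK.Idem.map oneI
  congr 1
  exact Matrix.map_one _ (map_zero f) (map_one f)

/-- a stably free idempotent has the class of a difference of identity matrices -/
theorem cls_of_idemFree {A : Type} [Ring A] {n : ℕ} (E : Matrix (Fin n) (Fin n) A) (hE : E * E = E)
    (h : IdemFree E) : ∃ k m : ℕ, NK.cls ⟨n, E, hE⟩ = NK.cls (oneI A m) - NK.cls (oneI A k) := by
  obtain ⟨k, m, X, Y, h1, h2⟩ := h
  refine ⟨k, m, ?_⟩
  rw [eq_sub_iff_add_eq, ← NK.cls_sum]
  apply NK.cls_eq
  refine ⟨X.submatrix finSumFinEquiv.symm id, Y.submatrix id finSumFinEquiv.symm, ?_, ?_⟩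
  · change X.submatrix finSumFinEquiv.symm (Equiv.refl (Fin m)) *
      Y.submatrix (Equiv.refl (Fin m)) finSumFinEquiv.symm =
        (Matrix.fromBlocks E 0 0 1).submatrix finSumFinEquiv.symm finSumFinEquiv.symm
    rw [Matrix.submatrix_mul_equiv, h1]
  · change Y.submatrix id finSumFinEquiv.symm * X.submatrix finSumFinEquiv.symm id = 1
    rw [Matrix.submatrix_mul_equiv, h2]
    rfl

theorem kap_oneI (G : Type) [Group G] (k : ℕ) :
    kap R G (NK.cls (oneI (MonoidAlgebra R (Multiplicative ℤ × G)) k)) = 0 := by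
  let A : RingCat.{0} := (NK.gr R).obj (GrpCat.of G)
  let f : MonoidAlgebra R (Multiplicative ℤ × G) →+* ((NK.monF (Multiplicative ℤ)).obj A) :=
    ((NK.theta R 1).inv.app (GrpCat.of G)).hom
  have h1 : kap R G (NK.cls (oneI (MonoidAlgebra R (Multiplicative ℤ × G)) k)) =
      QuotientAddGroup.mk' (NK.polySub (NK.Kneg 0) A)
        (NK.cls (NK.Idem.map f (oneI (MonoidAlgebra R (Multiplicative ℤ × G)) k))) := rfl
  rw [h1, map_oneI]
  refine (QuotientAddGroup.eq_zero_iff _).2 ?_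
  refine AddSubgroup.mem_sup_left ⟨NK.cls (oneI ((NK.monF (Multiplicative ℕ)).obj A) k), ?_⟩
  have h2 : ((NK.Kneg 0).map (NK.plus.app A)).hom
      (NK.cls (oneI ((NK.monF (Multiplicative ℕ)).obj A) k)) =
      NK.cls (NK.Idem.map (NK.plus.app A).hom (oneI ((NK.monF (Multiplicative ℕ)).obj A) k)) := rfl
  rw [h2, map_oneI]

theorem KN_one_of_stablyFree (G : Type) [Group G]
    (h : AllStablyFree (MonoidAlgebra R (Multiplicative ℤ × G))) : Subsingleton (KN R 1 G) := by
  refine KN_one_of_classes R G fun n E hE => ?_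
  obtain ⟨k, m, h1⟩ := cls_of_idemFree E hE (allStablyFree_iff.1 h n E hE)
  rw [h1, map_sub, kap_oneI, kap_oneI, sub_zero]

end free

section whC

variable {C : ∀ (G : Type) [Group G], Prop}

theorem zero_of_LQ (h : ∀ (r : ℕ) (S : Finset (FreeGroup (Fin r))),
    WhZero (LQ C r S)) (Γ : Type) [Group Γ] (hΓ : C Γ) : WhZero Γ := by
  classical
  intro n A
  obtain ⟨r, φ, A', B', hA, hB⟩ := exists_free_lift A.val (A⁻¹).val
  let S : Finset (FreeGroup (Fin r)) :=
    (WM (A' * B' - 1) ∪ WM (B' * A' - 1)).filter fun w => φ w = 1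
  let q : FreeGroup (Fin r) →* LQ C r S := QuotientGroup.mk' _
  have hS : quoKer C (S : Set (FreeGroup (Fin r))) ≤ φ.ker :=
    quoKer_le hΓ φ _ fun w hw => (Finset.mem_filter.1 (Finset.mem_coe.1 hw)).2
  let φ' : LQ C r S →* Γ := QuotientGroup.lift _ φ fun w hw => hS hw
  have hφ' : φ'.comp q = φ := by
    ext w
    rfl
  have key : ∀ w ∈ WM (A' * B' - 1) ∪ WM (B' * A' - 1), φ w = 1 → q w = 1 := by
    intro w hw h1
    exact (QuotientGroup.eq_one_iff _).2
      (subset_quoKer _ (Finset.mem_coe.2 (Finset.mem_filter.2 ⟨hw, h1⟩)))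
  have h1 : A'.map (gr ℤ q) * B'.map (gr ℤ q) = 1 := by
    rw [← map_sub_one_iff]
    refine killM_of' _ φ q (fun w hw => key w (Finset.mem_union_left _ hw)) ?_
    rw [map_sub_one_iff, hA, hB]
    exact Units.mul_inv _
  have h2 : B'.map (gr ℤ q) * A'.map (gr ℤ q) = 1 := by
    rw [← map_sub_one_iff]
    refine killM_of' _ φ q (fun w hw => key w (Finset.mem_union_right _ hw)) ?_
    rw [map_sub_one_iff, hA, hB]
    exact Units.inv_mul _
  have h3 : ZeroInWh (A'.map (gr ℤ q)) := h r S n ⟨_, _, h1, h2⟩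
  have h4 := zero_map φ' h3
  rwa [map_map_gr, hφ', hA] at h4

theorem free_of_LQ {R : Type} [Ring R] (h : ∀ (r : ℕ) (S : Finset (FreeGroup (Fin r))),
    AllStablyFree (MonoidAlgebra R (LQ C r S))) (Γ : Type) [Group Γ] (hΓ : C Γ) :
    AllStablyFree (MonoidAlgebra R Γ) := by
  rw [allStablyFree_iff]
  intro n E hE
  obtain ⟨r, S, φ, E₀, h1, h2⟩ := idem_liftC' hΓ E hE
  rw [← h2]
  exact idemFree_map φ (allStablyFree_iff.1 (h r S) n E₀ h1)

/-- the Whitehead group is trivial and the finitely generated projective modules over the integral group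
ring are stably free -/
def WhK (G : Type) [Group G] : Prop :=
  WhZero G ∧ AllStablyFree (MonoidAlgebra ℤ G)

/-- the Whitehead group, the reduced projective class group and the negative `K`-groups of the integral
group ring vanish -/
def LowK (G : Type) [Group G] : Prop :=
  WhZero G ∧ AllStablyFree (MonoidAlgebra ℤ G) ∧ ∀ m : ℕ, 1 ≤ m → Subsingleton (KN ℤ m G)

theorem lowK_of (D : ∀ (G : Type) [Group G], Prop)
    (hD : ∀ (G : Type) [Group G], D G → D (Multiplicative ℤ × G))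
    (h : ∀ (Γ : Type) [Group Γ], D Γ → WhK Γ) (Γ : Type) [Group Γ] (hΓ : D Γ) : LowK Γ := by
  have key : ∀ m : ℕ, 1 ≤ m → ∀ (Γ : Type) [Group Γ], D Γ → Subsingleton (KN ℤ m Γ) := by
    intro m hm
    induction m, hm using Nat.le_induction with
    | base => exact fun Γ _ hΓ => KN_one_of_stablyFree ℤ Γ (h _ (hD Γ hΓ)).2
    | succ m hm ih => exact fun Γ _ hΓ => KN_succ ℤ m Γ (ih _ (hD Γ hΓ))
  exact ⟨(h Γ hΓ).1, (h Γ hΓ).2, fun m hm => key m hm Γ hΓ⟩

theorem whK_tfae (hC : ClosedSP C) (hZ : C (Multiplicative ℤ)) :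
    List.TFAE
      [∀ (Γ : Type) [Group Γ], C Γ → LowK Γ,
        ∀ (r : ℕ) (S : Finset (FreeGroup (Fin r))), WhK (LQ C r S),
        WhK (Test C)] := by
  tfae_have 1 → 3 := fun h => ⟨(h _ (class_test hC)).1, (h _ (class_test hC)).2.1⟩
  tfae_have 3 → 2 := fun h r S => by
    obtain ⟨f, g, hgf⟩ := test_retract (C := C) r S
    exact ⟨zero_of_retract f g hgf h.1, free_of_retract f g hgf h.2⟩
  tfae_have 2 → 1 := fun h => lowK_of C (fun G _ hG => class_prodZ hC hZ hG) fun Γ _ hΓ =>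
    ⟨zero_of_LQ (fun r S => (h r S).1) Γ hΓ, free_of_LQ (fun r S => (h r S).2) Γ hΓ⟩
  tfae_finish

end whC

section limits

/-- `ℤ × Γ` is a limit of finite groups if `Γ` is -/
theorem isLimit_prodZ (Γ : Type) [Group Γ] (hΓ : IsLimit (fun G _ => Finite G) Γ) :
    IsLimit (fun G _ => Finite G) (Multiplicative ℤ × Γ) := by
  classical
  intro r φ W N
  obtain ⟨G, _, hG, hN, ψ, hψ⟩ := hΓ r ((MonoidHom.snd (Multiplicative ℤ) Γ).comp φ) W N
  let B : ℕ := W.sup fun w => (Multiplicative.toAdd (φ w).1).natAbs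
  obtain ⟨p, hp, hpp⟩ := Nat.exists_infinite_primes (B + N + 1)
  haveI := Fact.mk hpp
  let c : Multiplicative ℤ →* Multiplicative (ZMod p) :=
    AddMonoidHom.toMultiplicative (Int.castAddHom (ZMod p))
  have hc : ∀ w ∈ W, c (φ w).1 = 1 ↔ (φ w).1 = 1 := by
    intro w hw
    have hB : (Multiplicative.toAdd (φ w).1).natAbs ≤ B :=
      Finset.le_sup (f := fun w => (Multiplicative.toAdd (φ w).1).natAbs) hw
    constructor
    · intro h
      have h1 : ((Multiplicative.toAdd (φ w).1 : ℤ) : ZMod p) = 0 := h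
      rw [ZMod.intCast_zmod_eq_zero_iff_dvd] at h1
      have h2 : Multiplicative.toAdd (φ w).1 = 0 := by
        by_contra hne
        have h3 := Int.natAbs_dvd_natAbs.2 h1
        have h4 := Nat.le_of_dvd (Int.natAbs_pos.2 hne) h3
        simp only [Int.natAbs_natCast] at h4
        omega
      exact h2
    · intro h
      rw [h, map_one]
  haveI : Finite G := hG
  refine ⟨Multiplicative (ZMod p) × G, inferInstance, inferInstance, ?_,
    (c.comp ((MonoidHom.fst (Multiplicative ℤ) Γ).comp φ)).prod ψ, ?_⟩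
  · rintro ⟨z, g⟩ k hk hkN hg
    have h1 : z ^ k = 1 := congrArg Prod.fst hg
    have h2 : g ^ k = 1 := congrArg Prod.snd hg
    refine Prod.ext ?_ (hN g k hk hkN h2)
    have h3 : k • (Multiplicative.toAdd z) = 0 := congrArg Multiplicative.toAdd h1
    have h4 : (k : ZMod p) * Multiplicative.toAdd z = 0 := by
      rw [← nsmul_eq_mul]
      exact h3
    rcases mul_eq_zero.1 h4 with h5 | h5
    · rw [ZMod.natCast_eq_zero_iff] at h5
      have := Nat.le_of_dvd hk h5
      omega
    · exact h5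
  · intro w hw
    constructor
    · intro h
      have h1 : c (φ w).1 = 1 := congrArg Prod.fst h
      have h2 : ψ w = 1 := congrArg Prod.snd h
      exact Prod.ext ((hc w hw).1 h1) ((hψ w hw).1 h2)
    · intro h
      have h1 : (φ w).1 = 1 := congrArg Prod.fst h
      have h2 : (φ w).2 = 1 := congrArg Prod.snd h
      exact Prod.ext ((hc w hw).2 h1) ((hψ w hw).2 h2)

theorem lowK_finite :
    (∀ (Γ : Type) [Group Γ], IsLimit (fun G _ => Finite G) Γ → LowK Γ) ↔
      Finitary (fun G _ => Finite G) ∧ FinitarySplitting ℤ (fun G _ => Finite G) := by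
  rw [compactness, ← compactnessK]
  constructor
  · intro h
    exact ⟨fun Γ _ hΓ => (h Γ hΓ).1, fun Γ _ hΓ => (h Γ hΓ).2.1⟩
  · intro h
    exact lowK_of _ (fun G _ hG => isLimit_prodZ G hG) fun Γ _ hΓ => ⟨h.1 Γ hΓ, h.2 Γ hΓ⟩

theorem lowK_all :
    (∀ (Γ : Type) [Group Γ], TorsionFree Γ → LowK Γ) ↔
      Finitary (fun _ _ => True) ∧ FinitarySplitting ℤ (fun _ _ => True) := by
  rw [compactness, ← compactnessK]
  constructor
  · intro h
    exact ⟨fun Γ _ hΓ => (h Γ ((isLimit_all Γ).1 hΓ)).1,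
      fun Γ _ hΓ => (h Γ ((isLimit_all Γ).1 hΓ)).2.1⟩
  · intro h
    exact lowK_of _ (fun G _ hG => torsionFree_prod hG) fun Γ _ hΓ =>
      ⟨h.1 Γ ((isLimit_all Γ).2 hΓ), h.2 Γ ((isLimit_all Γ).2 hΓ)⟩

end limits

end Pool.Agent.U181.TG
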