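import Pool.Agent.U181.TG.Deriv

/-! The compactness principle for Whitehead groups and the test groups. -/

set_option autoImplicit false

namespace Pool.Agent.U181.TG

open Matrix

section lifts

/-- every matrix over a group ring comes from a free group of finite rank -/
theorem exists_free_lift {Γ : Type} [Group Γ] {n : ℕ}
    (A B : Matrix (Fin n) (Fin n) (MonoidAlgebra ℤ Γ)) :
    ∃ (r : ℕ) (φ : FreeGroup (Fin r) →* Γ)
      (A' B' : Matrix (Fin n) (Fin n) (MonoidAlgebra ℤ (FreeGroup (Fin r)))),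
      A'.map (gr ℤ φ) = A ∧ B'.map (gr ℤ φ) = B := by
  classical
  let T : Finset Γ := (Finset.univ.biUnion fun i => Finset.univ.biUnion fun j =>
    (A i j).coeff.support) ∪ (Finset.univ.biUnion fun i => Finset.univ.biUnion fun j =>
    (B i j).coeff.support)
  let e := T.equivFin
  let φ : FreeGroup (Fin T.card) →* Γ := FreeGroup.lift fun k => ((e.symm k : T) : Γ)
  have hT : ∀ g ∈ T, ∃ w, φ w = g := by
    intro g hg
    refine ⟨FreeGroup.of (e ⟨g, hg⟩), ?_⟩
    simp [φ]
  obtain ⟨A', hA'⟩ := lift_existsM (R := ℤ) φ A fun i j g hg => hT g (Finset.mem_union_left _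
    (Finset.mem_biUnion.2 ⟨i, Finset.mem_univ _, Finset.mem_biUnion.2 ⟨j, Finset.mem_univ _, hg⟩⟩))
  obtain ⟨B', hB'⟩ := lift_existsM (R := ℤ) φ B fun i j g hg => hT g (Finset.mem_union_right _
    (Finset.mem_biUnion.2 ⟨i, Finset.mem_univ _, Finset.mem_biUnion.2 ⟨j, Finset.mem_univ _, hg⟩⟩))
  exact ⟨_, φ, A', B', hA', hB'⟩

end lifts

section compactness

variable (C : ∀ (G : Type) [Group G], Prop)

theorem zero_of_finitary (h : Finitary C) (Γ : Type) [Group Γ] (hΓ : IsLimit C Γ) : WhZero Γ := by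
  classical
  intro n A
  obtain ⟨r, φ, A', B', hA, hB⟩ := exists_free_lift A.val (A⁻¹).val
  obtain ⟨L, N, hL⟩ := h r n A' B'
  choose Wd hWd using fun D : Derivation (FreeGroup (Fin r)) n => works_words D A'
  obtain ⟨G, _, hG, hN, ψ, hψ⟩ := hΓ r φ (L.biUnion Wd ∪ (WM (A' * B' - 1) ∪ WM (B' * A' - 1))) N
  have h1 : A'.map (gr ℤ ψ) * B'.map (gr ℤ ψ) = 1 := by
    rw [← map_sub_one_iff]
    refine (killM_iff _ φ ψ fun w hw => (hψ w ?_).symm).1 ?_
    · exact Finset.mem_union_right _ (Finset.mem_union_left _ hw)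
    · rw [map_sub_one_iff, hA, hB]
      exact Units.mul_inv _
  have h2 : B'.map (gr ℤ ψ) * A'.map (gr ℤ ψ) = 1 := by
    rw [← map_sub_one_iff]
    refine (killM_iff _ φ ψ fun w hw => (hψ w ?_).symm).1 ?_
    · exact Finset.mem_union_right _ (Finset.mem_union_right _ hw)
    · rw [map_sub_one_iff, hA, hB]
      exact Units.inv_mul _
  obtain ⟨D, hD, hW⟩ := hL G hG hN ψ h1 h2
  have h3 : D.Works A' φ := (hWd D G Γ ψ φ fun w hw => hψ w (Finset.mem_union_left _
    (Finset.mem_biUnion.2 ⟨D, hD, hw⟩))).1 hW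
  have h4 := zero_of_works D A' φ h3
  rwa [hA] at h4

theorem finitary_of_zero (h : ∀ (Γ : Type) [Group Γ], IsLimit C Γ → WhZero Γ) : Finitary C := by
  classical
  intro r n A B
  by_contra hcon
  push Not at hcon
  choose G iG hC hN φ h1 h2 h3 using hcon
  let I : Type := Finset (Derivation (FreeGroup (Fin r)) n) × ℕ
  let U : Ultrafilter I := Ultrafilter.of Filter.atTop
  have hU : ∀ {p : I → Prop}, (∀ᶠ i in Filter.atTop, p i) → ∀ᶠ i in (U : Filter I), p i :=
    fun hp => Filter.Eventually.filter_mono (Ultrafilter.of_le _) hp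
  have hU' : ∀ {p : I → Prop}, (∀ᶠ i in (U : Filter I), p i) → ∃ i, p i := fun hp => hp.exists
  -- the limit group
  let K : Subgroup (FreeGroup (Fin r)) :=
    { carrier := {w | ∀ᶠ i in (U : Filter I), φ i.1 i.2 w = 1}
      one_mem' := Filter.Eventually.of_forall fun i => map_one _
      mul_mem' := by
        intro a b ha hb
        filter_upwards [ha, hb] with i h1 h2
        rw [map_mul, h1, h2, one_mul]
      inv_mem' := by
        intro a ha
        filter_upwards [ha] with i h1
        rw [map_inv, h1, inv_one] }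
  have hKn : K.Normal := ⟨fun x hx g => by
    change ∀ᶠ i in (U : Filter I), φ i.1 i.2 (g * x * g⁻¹) = 1
    have hx' : ∀ᶠ i in (U : Filter I), φ i.1 i.2 x = 1 := hx
    filter_upwards [hx'] with i h1
    rw [map_mul, map_mul, h1, mul_one, map_inv, mul_inv_cancel]⟩
  let q : FreeGroup (Fin r) →* FreeGroup (Fin r) ⧸ K := QuotientGroup.mk' K
  have hq : Function.Surjective q := QuotientGroup.mk'_surjective K
  have hq1 : ∀ w, q w = 1 ↔ ∀ᶠ i in (U : Filter I), φ i.1 i.2 w = 1 := fun w =>
    (QuotientGroup.eq_one_iff w)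
  have agree : ∀ W : Finset (FreeGroup (Fin r)), ∀ᶠ i in (U : Filter I),
      ∀ w ∈ W, q w = 1 ↔ φ i.1 i.2 w = 1 := by
    intro W
    rw [Filter.eventually_all_finset]
    intro w _
    by_cases hw : q w = 1
    · filter_upwards [(hq1 w).1 hw] with i hi
      simp [hw, hi]
    · have h4 : ¬ ∀ᶠ i in (U : Filter I), φ i.1 i.2 w = 1 := fun h => hw ((hq1 w).2 h)
      rw [← Ultrafilter.eventually_not] at h4
      filter_upwards [h4] with i hi
      simp [hw, hi]
  have hlim : IsLimit C (FreeGroup (Fin r) ⧸ K) := by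
    intro r' ψ W N
    choose s hs using hq
    let ψ' : FreeGroup (Fin r') →* FreeGroup (Fin r) :=
      FreeGroup.lift fun j => s (ψ (FreeGroup.of j))
    have hψ' : q.comp ψ' = ψ := by
      apply FreeGroup.ext_hom
      intro j
      simp [ψ', hs]
    have e1 : ∀ᶠ i in (U : Filter I), N ≤ i.2 := by
      apply hU
      rw [Filter.eventually_atTop]
      exact ⟨(∅, N), fun i hi => hi.2⟩
    obtain ⟨i, hi1, hi2⟩ := hU' (e1.and (agree (W.image ψ')))
    refine ⟨G i.1 i.2, iG i.1 i.2, hC i.1 i.2, ?_, (φ i.1 i.2).comp ψ', ?_⟩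
    · intro g k hk hk' hg
      exact hN i.1 i.2 g k hk (hk'.trans hi1) hg
    · intro w hw
      rw [MonoidHom.comp_apply, ← hi2 (ψ' w) (Finset.mem_image_of_mem _ hw), ← hψ']
      rfl
  -- the matrix over the limit group
  have h4 : A.map (gr ℤ q) * B.map (gr ℤ q) = 1 := by
    rw [← map_sub_one_iff]
    obtain ⟨i, hi⟩ := hU' (agree (WM (A * B - 1)))
    refine (killM_iff _ q (φ i.1 i.2) hi).2 ?_
    rw [map_sub_one_iff]
    exact h1 i.1 i.2
  have h5 : B.map (gr ℤ q) * A.map (gr ℤ q) = 1 := by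
    rw [← map_sub_one_iff]
    obtain ⟨i, hi⟩ := hU' (agree (WM (B * A - 1)))
    refine (killM_iff _ q (φ i.1 i.2) hi).2 ?_
    rw [map_sub_one_iff]
    exact h2 i.1 i.2
  have h6 : ZeroInWh (A.map (gr ℤ q)) := h _ hlim n ⟨_, _, h4, h5⟩
  obtain ⟨D, hD⟩ := works_of_zero A q hq h6
  obtain ⟨W, hW⟩ := works_words D A
  have e2 : ∀ᶠ i in (U : Filter I), D ∈ i.1 := by
    apply hU
    rw [Filter.eventually_atTop]
    exact ⟨({D}, 0), fun i hi => hi.1 (Finset.mem_singleton_self D)⟩
  obtain ⟨i, hi1, hi2⟩ := hU' (e2.and (agree W))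
  exact h3 i.1 i.2 D hi1 ((hW _ _ q (φ i.1 i.2) hi2).1 hD)

theorem compactness : Finitary C ↔ ∀ (Γ : Type) [Group Γ], IsLimit C Γ → WhZero Γ :=
  ⟨fun h Γ _ hΓ => zero_of_finitary C h Γ hΓ, finitary_of_zero C⟩

/-- limits of groups without small torsion are torsion-free -/
theorem torsionFree_of_isLimit (Γ : Type) [Group Γ] (hΓ : IsLimit C Γ) : TorsionFree Γ := by
  classical
  intro g k hk hg
  obtain ⟨G, _, _, hN, ψ, hψ⟩ := hΓ 1 (FreeGroup.lift fun _ => g)
    {FreeGroup.of 0, FreeGroup.of 0 ^ k} k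
  have h1 : ψ (FreeGroup.of 0 ^ k) = 1 := by
    rw [hψ _ (by simp)]
    simp [hg]
  rw [map_pow] at h1
  have h2 := hN _ k hk le_rfl h1
  rw [hψ _ (by simp)] at h2
  simpa using h2

end compactness

theorem isLimit_all (Γ : Type) [Group Γ] :
    IsLimit (fun _ _ => True) Γ ↔ TorsionFree Γ := by
  refine ⟨torsionFree_of_isLimit _ Γ, fun h => ?_⟩
  intro r φ W N
  exact ⟨Γ, inferInstance, trivial, fun g k hk _ hg => h g k hk hg, φ, fun w _ => Iff.rfl⟩

/-! ### test groups -/

section test

theorem subset_tfClosure {F : Type} [Group F] (S : Set F) : S ⊆ tfClosure S := by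
  intro x hx
  change x ∈ tfClosure S
  unfold tfClosure
  rw [Subgroup.mem_sInf]
  exact fun N hN => hN.2.1 hx

theorem tfClosure_pow {F : Type} [Group F] (S : Set F) (w : F) (k : ℕ) (hk : 0 < k)
    (h : w ^ k ∈ tfClosure S) : w ∈ tfClosure S := by
  unfold tfClosure at h ⊢
  rw [Subgroup.mem_sInf] at h ⊢
  exact fun N hN => hN.2.2 w k hk (h N hN)

theorem tfClosure_le {F Γ : Type} [Group F] [Group Γ] (hΓ : TorsionFree Γ) (φ : F →* Γ) (S : Set F)
    (h : ∀ w ∈ S, φ w = 1) : tfClosure S ≤ φ.ker := by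
  unfold tfClosure
  apply sInf_le
  refine ⟨inferInstance, fun w hw => h w hw, fun w k hk hw => ?_⟩
  have h1 : φ (w ^ k) = 1 := hw
  rw [map_pow] at h1
  exact hΓ _ k hk h1

theorem torsionFree_tfQuotient (r : ℕ) (S : Finset (FreeGroup (Fin r))) :
    TorsionFree (TFQuotient r S) := by
  intro g k hk hg
  obtain ⟨w, rfl⟩ := QuotientGroup.mk'_surjective _ g
  rw [← map_pow] at hg
  have h1 : w ^ k ∈ tfClosure (S : Set (FreeGroup (Fin r))) := (QuotientGroup.eq_one_iff _).1 hg
  exact (QuotientGroup.eq_one_iff _).2 (tfClosure_pow _ w k hk h1)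

/-- the largest torsion-free quotients of finitely presented groups decide everything -/
theorem zero_of_tfQuotients (h : ∀ (r : ℕ) (S : Finset (FreeGroup (Fin r))),
    WhZero (TFQuotient r S)) (Γ : Type) [Group Γ] (hΓ : TorsionFree Γ) : WhZero Γ := by
  classical
  intro n A
  obtain ⟨r, φ, A', B', hA, hB⟩ := exists_free_lift A.val (A⁻¹).val
  let S : Finset (FreeGroup (Fin r)) :=
    (WM (A' * B' - 1) ∪ WM (B' * A' - 1)).filter fun w => φ w = 1
  let q : FreeGroup (Fin r) →* TFQuotient r S := QuotientGroup.mk' _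
  have hS : tfClosure (S : Set (FreeGroup (Fin r))) ≤ φ.ker :=
    tfClosure_le hΓ φ _ fun w hw => (Finset.mem_filter.1 (Finset.mem_coe.1 hw)).2
  let φ' : TFQuotient r S →* Γ := QuotientGroup.lift _ φ fun w hw => hS hw
  have hφ' : φ'.comp q = φ := by
    ext w
    rfl
  have key : ∀ w ∈ WM (A' * B' - 1) ∪ WM (B' * A' - 1), φ w = 1 → q w = 1 := by
    intro w hw h1
    exact (QuotientGroup.eq_one_iff _).2
      (subset_tfClosure _ (Finset.mem_coe.2 (Finset.mem_filter.2 ⟨hw, h1⟩)))
  have h1 : A'.map (gr ℤ q) * B'.map (gr ℤ q) = 1 := by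
    rw [← map_sub_one_iff]
    refine killM_of' _ φ q (fun w hw => key w (Finset.mem_union_left _ hw)) ?_
    rw [map_sub_one_iff, hA, hB]
    exact Units.mul_inv _
  have h2 : B'.map (gr ℤ q) * A'.map (gr ℤ q) = 1 := by
    rw [← map_sub_one_iff]
    refine killM_of' _ φ q (fun w hw => key w (Finset.mem_union_right _ hw)) ?_
    rw [map_sub_one_iff, hA, hB]
    exact Units.inv_mul _
  have h3 : ZeroInWh (A'.map (gr ℤ q)) := h r S n ⟨_, _, h1, h2⟩
  have h4 := zero_map φ' h3
  rwa [map_map_gr, hφ', hA] at h4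

theorem torsionFree_testGroup : TorsionFree TestGroup := by
  intro g k hk hg
  apply Subtype.ext
  funext i
  have h1 : (g.val i) ^ k = 1 := by
    have := congrArg (fun x : TestGroup => x.val i) hg
    simpa using this
  exact torsionFree_tfQuotient i.1 i.2 _ k hk h1

/-- retracts -/
theorem zero_of_retract {Γ Δ : Type} [Group Γ] [Group Δ] (f : Γ →* Δ) (g : Δ →* Γ)
    (h : g.comp f = MonoidHom.id Γ) (hΔ : WhZero Δ) : WhZero Γ := by
  intro n A
  have e1 : A.val.map (gr ℤ f) * (A⁻¹).val.map (gr ℤ f) = 1 := by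
    have := congrArg (gr ℤ f).mapMatrix (Units.mul_inv A)
    rwa [map_mul, map_one] at this
  have e2 : (A⁻¹).val.map (gr ℤ f) * A.val.map (gr ℤ f) = 1 := by
    have := congrArg (gr ℤ f).mapMatrix (Units.inv_mul A)
    rwa [map_mul, map_one] at this
  have h1 : ZeroInWh (A.val.map (gr ℤ f)) := hΔ n ⟨_, _, e1, e2⟩
  have h2 := zero_map g h1
  rw [map_map_gr, h] at h2
  have h0 : A.val.map (gr ℤ (MonoidHom.id Γ)) = A.val := by
    ext1 i j
    simp only [Matrix.map_apply, gr, MonoidAlgebra.mapDomainRingHom_id]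
    rfl
  rwa [h0] at h2

open Classical in
theorem zero_of_testGroup (h : WhZero TestGroup) (r : ℕ) (S : Finset (FreeGroup (Fin r))) :
    WhZero (TFQuotient r S) := by
  let fam : (Σ r : ℕ, Finset (FreeGroup (Fin r))) → Type := fun i => TFQuotient i.1 i.2
  let i : Σ r : ℕ, Finset (FreeGroup (Fin r)) := ⟨r, S⟩
  let e : TFQuotient r S →* (∀ i, fam i) := MonoidHom.mulSingle fam i
  have he : ∀ x j, j ≠ i → e x j = 1 := fun x j hj => Pi.mulSingle_eq_of_ne (M := fam) hj x
  have he' : ∀ x, e x i = x := fun x => Pi.mulSingle_eq_same (M := fam) i x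
  let f : TFQuotient r S →* TestGroup :=
    { toFun := fun x => ⟨e x, by
        change {j | e x j ≠ 1}.Finite
        refine (Set.finite_singleton i).subset ?_
        intro j hj
        by_contra hne
        exact hj (he x j hne)⟩
      map_one' := by
        apply Subtype.ext
        exact map_one e
      map_mul' := fun x y => by
        apply Subtype.ext
        exact map_mul e x y }
  let g : TestGroup →* TFQuotient r S :=
    { toFun := fun x => x.val i
      map_one' := rfl
      map_mul' := fun x y => rfl }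
  refine zero_of_retract f g ?_ h
  apply MonoidHom.ext
  intro x
  exact he' x

instance countable_freeGroup (r : ℕ) : Countable (FreeGroup (Fin r)) := by
  unfold FreeGroup
  infer_instance

theorem countable_testGroup : Countable TestGroup := by
  classical
  have h1 : ∀ i : (Σ r : ℕ, Finset (FreeGroup (Fin r))), Countable (TFQuotient i.1 i.2) := by
    intro i
    exact (QuotientGroup.mk'_surjective (tfClosure (i.2 : Set (FreeGroup (Fin i.1))))).countable
  -- finitely supported functions as finite sets of pairs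
  let P : Type := Σ i : (Σ r : ℕ, Finset (FreeGroup (Fin r))), TFQuotient i.1 i.2
  have hfin : ∀ x : TestGroup, {i | x.val i ≠ 1}.Finite := fun x => x.2
  let F : TestGroup → Finset P := fun x =>
    (hfin x).toFinset.image fun i => (⟨i, x.val i⟩ : P)
  have hF : Function.Injective F := by
    intro x y hxy
    apply Subtype.ext
    funext i
    by_cases hx : x.val i = 1
    · by_cases hy : y.val i = 1
      · rw [hx, hy]
      · have h2 : (⟨i, y.val i⟩ : P) ∈ F y := Finset.mem_image.2
          ⟨i, (Set.Finite.mem_toFinset _).2 hy, rfl⟩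
        rw [← hxy] at h2
        obtain ⟨j, hj, hj'⟩ := Finset.mem_image.1 h2
        have h3 : j = i := congrArg Sigma.fst hj'
        subst h3
        exact eq_of_heq (Sigma.mk.inj hj').2
    · have h2 : (⟨i, x.val i⟩ : P) ∈ F x := Finset.mem_image.2
        ⟨i, (Set.Finite.mem_toFinset _).2 hx, rfl⟩
      rw [hxy] at h2
      obtain ⟨j, hj, hj'⟩ := Finset.mem_image.1 h2
      have h3 : j = i := congrArg Sigma.fst hj'
      subst h3
      exact (eq_of_heq (Sigma.mk.inj hj').2).symm
  exact hF.countable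

end test

end Pool.Agent.U181.TG
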